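import Pool.Agent.H16.SQ.E2

set_option autoImplicit false

/-!
# High moments in an abstract form, and complete sums over a finite field
-/

namespace Pool.Agent.H16.CU

open Finset Polynomial Pool.Agent.H471R4.BW Pool.Agent.H435R3.Weil

/-- the product over a pair of tuples -/
noncomputable def tm {Z : Type} (f : ℕ → Z → ℂ) {r : ℕ} (b c : Fin r → ℕ) (z : Z) : ℂ :=
  (∏ i, f (b i) z) * ∏ i, (starRingEnd ℂ) (f (c i) z)

theorem tm_norm {Z : Type} (f : ℕ → Z → ℂ) (hf : ∀ b z, ‖f b z‖ ≤ 1) {r : ℕ} (b c : Fin r → ℕ) (z : Z) :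
    ‖tm f b c z‖ ≤ 1 := by
  unfold tm
  rw [norm_mul, norm_prod, norm_prod]
  refine mul_le_one₀ (Finset.prod_le_one (fun i _ => norm_nonneg _) fun i _ => hf _ _)
    (Finset.prod_nonneg fun i _ => norm_nonneg _)
    (Finset.prod_le_one (fun i _ => norm_nonneg _) fun i _ => ?_)
  rw [RCLike.norm_conj]
  exact hf _ _

theorem expand {Z : Type} (f : ℕ → Z → ℂ) (r n : ℕ) (z : Z) :
    ((‖∑ j : Fin n, f j z‖ ^ (2 * r) : ℝ) : ℂ) =
      ∑ b : Fin r → Fin n, ∑ c : Fin r → Fin n, tm f (fun i => (b i : ℕ)) (fun i => (c i : ℕ)) z := by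
  set S : ℂ := ∑ j : Fin n, f j z with hS
  have h1 : ((‖S‖ ^ (2 * r) : ℝ) : ℂ) = S ^ r * (starRingEnd ℂ) S ^ r := by
    rw [← mul_pow, Complex.mul_conj, Complex.normSq_eq_norm_sq, pow_mul]
    push_cast
    ring
  have h2 : S ^ r = ∑ b : Fin r → Fin n, ∏ i, f (b i) z := by
    rw [hS, ← Fin.prod_const, Finset.prod_univ_sum, Fintype.piFinset_univ]
  have h3 : (starRingEnd ℂ) S ^ r = ∑ c : Fin r → Fin n, ∏ i, (starRingEnd ℂ) (f (c i) z) := by
    rw [hS, map_sum, ← Fin.prod_const, Finset.prod_univ_sum, Fintype.piFinset_univ]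
  rw [h1, h2, h3, Finset.sum_mul_sum]
  rfl

open Classical in
/-- **the moment, abstract form** -/
theorem moment_abs {Z : Type} [Fintype Z] (f : ℕ → Z → ℂ) (hf : ∀ b z, ‖f b z‖ ≤ 1) (r n : ℕ) (hr : 1 ≤ r)
    (M : ℝ) (hM : 0 ≤ M) (hS : ∀ b c : Fin r → ℕ, (∀ i, b i < n) → (∀ i, c i < n) → Uniq b c →
      ‖∑ z : Z, tm f b c z‖ ≤ M) :
    ∑ z : Z, ‖∑ j ∈ range n, f j z‖ ^ (2 * r) ≤
      (r : ℝ) ^ (2 * r) * (n : ℝ) ^ r * Fintype.card Z + (n : ℝ) ^ (2 * r) * M := by
  have e0 : ∀ z : Z, ∑ j ∈ range n, f j z = ∑ j : Fin n, f j z := fun z => sum_range _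
  simp_rw [e0]
  have hW : ((∑ z : Z, ‖∑ j : Fin n, f j z‖ ^ (2 * r) : ℝ) : ℂ) =
      ∑ u : (Fin r → Fin n) × (Fin r → Fin n),
        ∑ z : Z, tm f (fun i => (u.1 i : ℕ)) (fun i => (u.2 i : ℕ)) z := by
    rw [Finset.sum_comm]
    push_cast
    refine Finset.sum_congr rfl fun z _ => ?_
    have := expand f r n z
    push_cast at this
    rw [this, ← Finset.univ_product_univ, Finset.sum_product]
  have hW0 : 0 ≤ ∑ z : Z, ‖∑ j : Fin n, f j z‖ ^ (2 * r) := Finset.sum_nonneg fun x _ => by positivity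
  have hW1 : ∑ z : Z, ‖∑ j : Fin n, f j z‖ ^ (2 * r) =
      ‖∑ u : (Fin r → Fin n) × (Fin r → Fin n),
        ∑ z : Z, tm f (fun i => (u.1 i : ℕ)) (fun i => (u.2 i : ℕ)) z‖ := by
    rw [← hW, Complex.norm_real, Real.norm_eq_abs, abs_of_nonneg hW0]
  rw [hW1]
  refine (norm_sum_le _ _).trans ?_
  rw [← Finset.sum_filter_add_sum_filter_not Finset.univ
    (fun u : (Fin r → Fin n) × (Fin r → Fin n) =>
      ¬ Uniq (fun i => (u.1 i : ℕ)) (fun i => (u.2 i : ℕ)))]
  refine add_le_add ?_ ?_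
  · have h1 : ∀ u ∈ Finset.univ.filter (fun u : (Fin r → Fin n) × (Fin r → Fin n) =>
        ¬ Uniq (fun i => (u.1 i : ℕ)) (fun i => (u.2 i : ℕ))),
        ‖∑ z : Z, tm f (fun i => (u.1 i : ℕ)) (fun i => (u.2 i : ℕ)) z‖ ≤ (Fintype.card Z : ℝ) := by
      intro u _
      refine (norm_sum_le _ _).trans ?_
      calc _ ≤ ∑ _z : Z, (1 : ℝ) := Finset.sum_le_sum fun x _ => tm_norm f hf _ _ x
        _ = Fintype.card Z := by simp
    refine (Finset.sum_le_card_nsmul _ _ _ h1).trans ?_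
    rw [nsmul_eq_mul]
    have h2 : (((Finset.univ.filter (fun u : (Fin r → Fin n) × (Fin r → Fin n) =>
        ¬ Uniq (fun i => (u.1 i : ℕ)) (fun i => (u.2 i : ℕ)))).card : ℕ) : ℝ) ≤
        (r : ℝ) ^ (2 * r) * (n : ℝ) ^ r := by
      exact_mod_cast tup r n hr
    exact mul_le_mul_of_nonneg_right h2 (Nat.cast_nonneg _)
  · have h1 : ∀ u ∈ Finset.univ.filter (fun u : (Fin r → Fin n) × (Fin r → Fin n) =>
        ¬ ¬ Uniq (fun i => (u.1 i : ℕ)) (fun i => (u.2 i : ℕ))),
        ‖∑ z : Z, tm f (fun i => (u.1 i : ℕ)) (fun i => (u.2 i : ℕ)) z‖ ≤ M := by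
      intro u hu
      rw [Finset.mem_filter] at hu
      exact hS _ _ (fun i => (u.1 i).isLt) (fun i => (u.2 i).isLt) (not_not.1 hu.2)
    refine (Finset.sum_le_card_nsmul _ _ _ h1).trans ?_
    rw [nsmul_eq_mul]
    have h2 : (((Finset.univ.filter (fun u : (Fin r → Fin n) × (Fin r → Fin n) =>
        ¬ ¬ Uniq (fun i => (u.1 i : ℕ)) (fun i => (u.2 i : ℕ)))).card : ℕ) : ℝ) ≤
        (n : ℝ) ^ (2 * r) := by
      have h3 := Finset.card_filter_le (Finset.univ : Finset ((Fin r → Fin n) × (Fin r → Fin n)))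
        (fun u => ¬ ¬ Uniq (fun i => (u.1 i : ℕ)) (fun i => (u.2 i : ℕ)))
      have h4 : (Finset.univ : Finset ((Fin r → Fin n) × (Fin r → Fin n))).card = n ^ (2 * r) := by
        rw [Finset.card_univ, Fintype.card_prod, Fintype.card_fun, Fintype.card_fin,
          Fintype.card_fin, two_mul, pow_add]
      rw [h4] at h3
      exact_mod_cast h3
    exact mul_le_mul_of_nonneg_right h2 hM

/-- counting the root `-w v` -/
theorem count_root {F : Type} [Field F] {r n : ℕ} (w : ℕ → F) (hw : Set.InjOn w (range n : Finset ℕ)) (b : Fin r → ℕ)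
    (hb : ∀ i, b i < n) (v : ℕ) (hv : v < n) :
    ∑ i, rootMultiplicity (-(w v)) (X + C (w (b i)) : F[X]) = (univ.filter fun i => b i = v).card := by
  classical
  rw [card_filter]
  refine sum_congr rfl fun i _ => ?_
  have e : (X + C (w (b i)) : F[X]) = X - C (-(w (b i))) := by
    rw [map_neg, sub_neg_eq_add]
  rw [e, rootMultiplicity_X_sub_C]
  have h : -(w v) = -(w (b i)) ↔ b i = v := by
    rw [neg_inj]
    constructor
    · intro h
      exact (hw (mem_coe.2 (mem_range.2 hv)) (mem_coe.2 (mem_range.2 (hb i))) h).symm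
    · intro h; rw [h]
  simp only [h]

/-- **complete sums** of products of shifts of a character of a finite field -/
theorem complete_field {F : Type} [Field F] [Fintype F] (ψ : MulChar F ℂ) (hψ : ψ ≠ 1)
    (r n : ℕ) (w : ℕ → F) (hw : Set.InjOn w (range n : Finset ℕ)) (b c : Fin r → ℕ)
    (hb : ∀ i, b i < n) (hc : ∀ i, c i < n) (huniq : Uniq b c) :
    ‖∑ x : F, tm (fun k x => ψ (x + w k)) b c x‖ ≤ 2 * r * Real.sqrt (Fintype.card F) := by
  classical
  set t := orderOf ψ with ht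
  have hdvd : t ∣ Fintype.card F - 1 := MulChar.orderOf_dvd_card_sub_one (F := F) ψ
  have ht0 : t ≠ 0 := by
    intro h0
    rw [h0, zero_dvd_iff] at hdvd
    have := Fintype.one_lt_card (α := F)
    omega
  have ht1 : t ≠ 1 := fun h1 => hψ (orderOf_eq_one_iff.1 h1)
  have ht2 : 2 ≤ t := by omega
  have hχt : ψ ^ t = 1 := pow_orderOf_eq_one ψ
  set P : F[X] := ∏ i, (X + C (w (b i))) with hP
  set R : F[X] := ∏ i, (X + C (w (c i))) with hR
  have hPm : P.Monic := monic_prod_of_monic _ _ fun i _ => monic_X_add_C _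
  have hRm : R.Monic := monic_prod_of_monic _ _ fun i _ => monic_X_add_C _
  have hF0 : P * R ^ (t - 1) ≠ 0 := (hPm.mul (hRm.pow _)).ne_zero
  have hPdeg : P.natDegree = r := by
    rw [hP, natDegree_prod_of_monic _ _ fun i _ => monic_X_add_C _,
      sum_congr rfl (fun i _ => natDegree_X_add_C (w (b i)))]
    simp
  have hRdeg : R.natDegree = r := by
    rw [hR, natDegree_prod_of_monic _ _ fun i _ => monic_X_add_C _,
      sum_congr rfl (fun i _ => natDegree_X_add_C (w (c i)))]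
    simp
  have hcop : Cop t (P * R ^ (t - 1)) := by
    obtain ⟨v, hv⟩ := huniq
    have hvB : v < n := by
      by_contra hcon
      have h1 : (univ.filter fun i => b i = v) = ∅ := by
        refine filter_false_of_mem fun i _ hi => ?_
        have := hb i
        omega
      have h2 : (univ.filter fun i => c i = v) = ∅ := by
        refine filter_false_of_mem fun i _ hi => ?_
        have := hc i
        omega
      rw [h1, h2] at hv
      simp at hv
    refine ⟨-(w v), ?_⟩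
    have e2 : rootMultiplicity (-(w v)) (P * R ^ (t - 1)) =
        (univ.filter fun i => b i = v).card + (t - 1) * (univ.filter fun i => c i = v).card := by
      rw [rootMultiplicity_mul hF0, csl_rm_pow R _ hRm.ne_zero, hP, hR,
        csl_rm_prod _ _ _ (fun i _ => (monic_X_add_C _).ne_zero),
        csl_rm_prod _ _ _ (fun i _ => (monic_X_add_C _).ne_zero),
        count_root w hw b hb v hvB, count_root w hw c hc v hvB]
    rw [e2]
    rcases Nat.eq_zero_or_pos (univ.filter fun i => b i = v).card with h0 | h0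
    · have h1 : (univ.filter fun i => c i = v).card = 1 := by omega
      rw [h0, h1, zero_add, mul_one]
      have h2 : t = (t - 1) + 1 := by omega
      have h3 : Nat.Coprime (t - 1) ((t - 1) + 1) := by simp
      rwa [← h2] at h3
    · have h1 : (univ.filter fun i => c i = v).card = 0 := by omega
      have h2 : (univ.filter fun i => b i = v).card = 1 := by omega
      rw [h1, h2, mul_zero, add_zero]
      exact Nat.coprime_one_left t
  have hwe := weil t ht2 hdvd ψ hψ hχt P R hPm hRm hcop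
  rw [hPdeg, hRdeg] at hwe
  have e1 : ∀ x : F, ψ (P.eval x) * (starRingEnd ℂ) (ψ (R.eval x)) = tm (fun k x => ψ (x + w k)) b c x := by
    intro x
    unfold tm
    rw [hP, hR, eval_prod, eval_prod, map_prod, map_prod, map_prod]
    simp
  rw [sum_congr rfl fun x _ => e1 x] at hwe
  refine hwe.trans (le_of_eq ?_)
  push_cast
  ring

/-- shifts by `1, ..., n` of a residue modulo `p ≥ n`, in a field containing `ZMod p` -/
theorem shifts_inj {p : ℕ} [Fact p.Prime] {K : Type} [Field K] [CharP K p] (n : ℕ) (hn : n ≤ p) :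
    Set.InjOn (fun b : ℕ => ((b : K) + 1)) (range n : Finset ℕ) := by
  intro a ha b hb hab
  rw [mem_coe, mem_range] at ha hb
  have h : (a : K) = (b : K) := add_right_cancel hab
  rw [CharP.natCast_eq_natCast K p] at h
  exact Nat.ModEq.eq_of_lt_of_lt h (by omega) (by omega)

/-- pairs of shifts, two characters -/
theorem moment_pair {p : ℕ} [Fact p.Prime] (χ₁ χ₂ : DirichletCharacter ℂ p) (h₁ : χ₁ ≠ 1) (h₂ : χ₂ ≠ 1)
    (r n : ℕ) (hr : 1 ≤ r) (hn : n ≤ p) (hpn : (p : ℝ) ≤ (n : ℝ) ^ r) :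
    ∑ z : ZMod p × ZMod p, ‖∑ j ∈ range n, χ₁ (z.1 + ((j : ZMod p) + 1)) * χ₂ (z.2 + ((j : ZMod p) + 1))‖ ^ (2 * r) ≤
      ((r : ℝ) ^ (2 * r) + 4 * r ^ 2) * (n : ℝ) ^ (2 * r) * p := by
  classical
  have hp0 : (0:ℝ) ≤ p := Nat.cast_nonneg _
  have key : ∀ b c : Fin r → ℕ, (∀ i, b i < n) → (∀ i, c i < n) → Uniq b c →
      ‖∑ z : ZMod p × ZMod p, tm (fun k z => χ₁ (z.1 + ((k : ZMod p) + 1)) * χ₂ (z.2 + ((k : ZMod p) + 1))) b c z‖ ≤
        4 * r ^ 2 * p := by
    intro b c hb hc hu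
    have e : ∑ z : ZMod p × ZMod p, tm (fun k (z : ZMod p × ZMod p) => χ₁ (z.1 + ((k : ZMod p) + 1)) * χ₂ (z.2 + ((k : ZMod p) + 1))) b c z =
        (∑ x : ZMod p, tm (fun k x => χ₁ (x + ((k : ZMod p) + 1))) b c x) *
          ∑ x : ZMod p, tm (fun k x => χ₂ (x + ((k : ZMod p) + 1))) b c x := by
      rw [sum_mul_sum, ← univ_product_univ, sum_product]
      refine sum_congr rfl fun x _ => sum_congr rfl fun y _ => ?_
      unfold tm
      simp only [map_mul, prod_mul_distrib]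
      ring
    rw [e, norm_mul]
    have k1 := complete_field χ₁ h₁ r n (fun k : ℕ => ((k : ZMod p) + 1)) (shifts_inj (p := p) n hn) b c hb hc hu
    have k2 := complete_field χ₂ h₂ r n (fun k : ℕ => ((k : ZMod p) + 1)) (shifts_inj (p := p) n hn) b c hb hc hu
    rw [ZMod.card] at k1 k2
    calc _ ≤ (2 * r * Real.sqrt p) * (2 * r * Real.sqrt p) := mul_le_mul k1 k2 (norm_nonneg _) (by positivity)
      _ = 4 * r ^ 2 * (Real.sqrt p * Real.sqrt p) := by ring
      _ = 4 * r ^ 2 * p := by rw [Real.mul_self_sqrt hp0]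
  have h := moment_abs (fun k (z : ZMod p × ZMod p) => χ₁ (z.1 + ((k : ZMod p) + 1)) * χ₂ (z.2 + ((k : ZMod p) + 1)))
    (fun b z => by
      rw [norm_mul]
      exact mul_le_one₀ (DirichletCharacter.norm_le_one _ _) (norm_nonneg _) (DirichletCharacter.norm_le_one _ _))
    r n hr (4 * r ^ 2 * p) (by positivity) key
  refine h.trans ?_
  rw [Fintype.card_prod, ZMod.card]
  push_cast
  calc (r : ℝ) ^ (2 * r) * (n : ℝ) ^ r * (p * p) + (n : ℝ) ^ (2 * r) * (4 * r ^ 2 * p)
      ≤ (r : ℝ) ^ (2 * r) * (n : ℝ) ^ r * (n ^ r * p) + (n : ℝ) ^ (2 * r) * (4 * r ^ 2 * p) := by gcongr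
    _ = _ := by rw [two_mul r, pow_add]; ring

/-- the character of the quadratic extension given by the norm -/
noncomputable def normChar {p : ℕ} [Fact p.Prime] (χ : DirichletCharacter ℂ p) : MulChar (GaloisField p 2) ℂ where
  toFun z := χ (Algebra.norm (ZMod p) z)
  map_one' := by simp
  map_mul' a b := by simp
  map_nonunit' a ha := by
    have : a = 0 := by
      by_contra h
      exact ha (isUnit_iff_ne_zero.2 h)
    rw [this, Algebra.norm_zero, MulChar.map_zero]

theorem normChar_apply {p : ℕ} [Fact p.Prime] (χ : DirichletCharacter ℂ p) (z : GaloisField p 2) :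
    normChar χ z = χ (Algebra.norm (ZMod p) z) := rfl

theorem normChar_ne {p : ℕ} [Fact p.Prime] (χ : DirichletCharacter ℂ p) (hχ : χ ≠ 1) : normChar χ ≠ 1 := by
  intro h
  apply hχ
  ext a
  obtain ⟨z, hz⟩ := FiniteField.norm_surjective (ZMod p) (GaloisField p 2) (a : ZMod p)
  have h1 : normChar χ z = χ a := by rw [normChar_apply, hz]
  have hz0 : z ≠ 0 := by
    intro h0
    rw [h0, Algebra.norm_zero] at hz
    exact a.ne_zero hz.symm
  rw [← h1, h, MulChar.one_apply (isUnit_iff_ne_zero.2 hz0), MulChar.one_apply a.isUnit]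

noncomputable instance {p : ℕ} [Fact p.Prime] : Fintype (GaloisField p 2) := Fintype.ofFinite _

theorem card_gf {p : ℕ} [Fact p.Prime] : Fintype.card (GaloisField p 2) = p ^ 2 := by
  rw [← Nat.card_eq_fintype_card]
  exact GaloisField.card p 2 two_ne_zero

/-- shifts in the quadratic extension -/
theorem moment_norm {p : ℕ} [Fact p.Prime] (χ : DirichletCharacter ℂ p) (h₁ : χ ≠ 1)
    (r n : ℕ) (hr : 1 ≤ r) (hn : n ≤ p) (hpn : (p : ℝ) ≤ (n : ℝ) ^ r) :
    ∑ z : GaloisField p 2, ‖∑ j ∈ range n, normChar χ (z + ((j : GaloisField p 2) + 1))‖ ^ (2 * r) ≤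
      ((r : ℝ) ^ (2 * r) + 4 * r ^ 2) * (n : ℝ) ^ (2 * r) * p := by
  classical
  have hp0 : (0:ℝ) ≤ p := Nat.cast_nonneg _
  have hψ := normChar_ne χ h₁
  have key : ∀ b c : Fin r → ℕ, (∀ i, b i < n) → (∀ i, c i < n) → Uniq b c →
      ‖∑ z : GaloisField p 2, tm (fun k z => normChar χ (z + ((k : GaloisField p 2) + 1))) b c z‖ ≤ 4 * r ^ 2 * p := by
    intro b c hb hc hu
    have k1 := complete_field (normChar χ) hψ r n (fun k : ℕ => ((k : GaloisField p 2) + 1))
      (shifts_inj (p := p) n hn) b c hb hc hu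
    rw [card_gf] at k1
    have hs : Real.sqrt ((p ^ 2 : ℕ) : ℝ) = p := by
      push_cast
      exact Real.sqrt_sq hp0
    rw [hs] at k1
    refine k1.trans ?_
    have : (1:ℝ) ≤ r := by exact_mod_cast hr
    have h2 : (2:ℝ) * r ≤ 4 * r ^ 2 := by nlinarith
    exact mul_le_mul_of_nonneg_right h2 hp0
  have h := moment_abs (fun k (z : GaloisField p 2) => normChar χ (z + ((k : GaloisField p 2) + 1)))
    (fun b z => DirichletCharacter.norm_le_one _ _) r n hr (4 * r ^ 2 * p) (by positivity) key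
  refine h.trans ?_
  rw [card_gf]
  push_cast
  calc (r : ℝ) ^ (2 * r) * (n : ℝ) ^ r * p ^ 2 + (n : ℝ) ^ (2 * r) * (4 * r ^ 2 * p)
      = (r : ℝ) ^ (2 * r) * (n : ℝ) ^ r * (p * p) + (n : ℝ) ^ (2 * r) * (4 * r ^ 2 * p) := by ring
    _ ≤ (r : ℝ) ^ (2 * r) * (n : ℝ) ^ r * (n ^ r * p) + (n : ℝ) ^ (2 * r) * (4 * r ^ 2 * p) := by gcongr
    _ = _ := by rw [two_mul r, pow_add]; ring

end Pool.Agent.H16.CU
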