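import Pool.Agent.H16.CU.C1

set_option autoImplicit false

/-!
# Burgess's method for a family of sums: collisions and the main step
-/

namespace Pool.Agent.H16.CU

open Finset Pool.Agent.H16.SQ

variable {ι : Type}

/-- triples `(u, y, a)` -/
def V (U : Finset ι) (nn : ι → ℕ) (N A : ℕ) : Finset (ι × (ℕ × ℕ)) :=
  (U ×ˢ (range N ×ˢ Icc 1 A)).filter fun w => w.2.1 < nn w.1

theorem V_mem {U : Finset ι} {nn : ι → ℕ} {N A : ℕ} {w : ι × (ℕ × ℕ)} :
    w ∈ V U nn N A ↔ (w.1 ∈ U ∧ w.2.1 < N ∧ 1 ≤ w.2.2 ∧ w.2.2 ≤ A) ∧ w.2.1 < nn w.1 := by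
  unfold V
  rw [mem_filter, mem_product, mem_product, mem_range, mem_Icc]

theorem V_card (U : Finset ι) (nn : ι → ℕ) (N A : ℕ) : (V U nn N A).card ≤ U.card * (N * A) := by
  unfold V
  refine (card_filter_le _ _).trans ?_
  rw [card_product, card_product, card_range, Nat.card_Icc, Nat.add_sub_cancel]

/-- the number of `(δ, δ')` with `δ a' = δ' a` -/
noncomputable def cc (N a a' : ℕ) : ℕ :=
  ((Icc (-(N:ℤ)) N ×ˢ Icc (-(N:ℤ)) N).filter fun δ => δ.1 * (a' : ℤ) = δ.2 * (a : ℤ)).card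

theorem sum_cc (N A Dv Q : ℕ) (hQ : N * A ≤ Q) (hD : ∀ n : ℕ, n ≤ Q → n.divisors.card ≤ Dv) :
    ∑ aa ∈ Icc 1 A ×ˢ Icc 1 A, cc N aa.1 aa.2 ≤ A ^ 2 + 2 * N * A * Dv := by
  classical
  have h1 : ∑ aa ∈ Icc 1 A ×ˢ Icc 1 A, cc N aa.1 aa.2 =
      ∑ δ ∈ Icc (-(N:ℤ)) N, ∑ a' ∈ Icc 1 A, ∑ a ∈ Icc 1 A,
        ((Icc (-(N:ℤ)) N).filter fun δ' => δ * (a' : ℤ) = δ' * (a : ℤ)).card := by
    have e1 : ∀ aa ∈ Icc 1 A ×ˢ Icc 1 A, cc N aa.1 aa.2 = ∑ δ ∈ Icc (-(N:ℤ)) N,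
        ((Icc (-(N:ℤ)) N).filter fun δ' => δ * (aa.2 : ℤ) = δ' * (aa.1 : ℤ)).card := by
      intro aa _
      unfold cc
      rw [card_filter, sum_product]
      refine sum_congr rfl fun δ _ => ?_
      rw [card_filter]
    rw [sum_congr rfl e1, sum_comm]
    refine sum_congr rfl fun δ _ => ?_
    rw [sum_product_right]
  rw [h1]
  have h2 : ∀ δ ∈ Icc (-(N:ℤ)) N, ∀ a' ∈ Icc 1 A, ∀ a ∈ Icc 1 A,
      ((Icc (-(N:ℤ)) N).filter fun δ' => δ * (a' : ℤ) = δ' * (a : ℤ)).card ≤ if (a : ℤ) ∣ δ * a' then 1 else 0 := by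
    intro δ _ a' _ a ha
    rw [mem_Icc] at ha
    split_ifs with hd
    · rw [card_le_one]
      intro x hx y hy
      rw [mem_filter] at hx hy
      have : (a : ℤ) ≠ 0 := by omega
      exact mul_right_cancel₀ this (hx.2.symm.trans hy.2)
    · rw [Nat.le_zero, card_eq_zero, filter_eq_empty_iff]
      intro x _ hx
      exact hd ⟨x, by rw [hx]; ring⟩
  have h0mem : (0:ℤ) ∈ Icc (-(N:ℤ)) N := by rw [mem_Icc]; constructor <;> omega
  have h3 : Icc (-(N:ℤ)) N = insert 0 ((Icc (-(N:ℤ)) N).erase 0) := by rw [insert_erase h0mem]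
  calc _ ≤ ∑ δ ∈ Icc (-(N:ℤ)) N, ∑ a' ∈ Icc 1 A, ∑ a ∈ Icc 1 A, (if (a : ℤ) ∣ δ * a' then 1 else 0) :=
        sum_le_sum fun δ hδ => sum_le_sum fun a' ha' => sum_le_sum fun a ha => h2 δ hδ a' ha' a ha
    _ = ∑ δ ∈ Icc (-(N:ℤ)) N, ∑ a' ∈ Icc 1 A, ((Icc 1 A).filter fun a : ℕ => (a : ℤ) ∣ δ * a').card := by
        refine sum_congr rfl fun δ _ => sum_congr rfl fun a' _ => ?_
        rw [card_filter]
    _ ≤ A ^ 2 + 2 * N * A * Dv := by
        rw [h3, sum_insert (by simp)]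
        refine Nat.add_le_add ?_ ?_
        · calc _ ≤ ∑ a' ∈ Icc 1 A, A := by
                refine sum_le_sum fun a' _ => (card_filter_le _ _).trans ?_
                rw [Nat.card_Icc]; omega
            _ = A ^ 2 := by rw [sum_const, Nat.card_Icc, Nat.add_sub_cancel, smul_eq_mul]; ring
        · calc _ ≤ ∑ δ ∈ (Icc (-(N:ℤ)) N).erase 0, ∑ a' ∈ Icc 1 A, Dv := by
                refine sum_le_sum fun δ hδ => sum_le_sum fun a' ha' => ?_
                rw [mem_erase, mem_Icc] at hδ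
                rw [mem_Icc] at ha'
                have hne : δ * (a' : ℤ) ≠ 0 := mul_ne_zero hδ.1 (by omega)
                have hb : (δ * (a' : ℤ)).natAbs ≤ Q := by
                  rw [Int.natAbs_mul, Int.natAbs_natCast]
                  have h5 : δ.natAbs ≤ N := by omega
                  calc δ.natAbs * a' ≤ N * A := Nat.mul_le_mul h5 ha'.2
                    _ ≤ Q := hQ
                refine le_trans (card_le_card ?_) (hD _ hb)
                intro a ha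
                rw [mem_filter] at ha
                rw [Nat.mem_divisors]
                refine ⟨?_, by omega⟩
                have := Int.natAbs_dvd_natAbs.2 ha.2
                simpa using this
            _ ≤ 2 * N * A * Dv := by
                rw [sum_const, sum_const, Nat.card_Icc, Nat.add_sub_cancel, smul_eq_mul, smul_eq_mul,
                  card_erase_of_mem h0mem, Int.card_Icc]
                have : ((N : ℤ) + 1 - -(N:ℤ)).toNat - 1 = 2 * N := by omega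
                rw [this]
                apply le_of_eq
                ring

/-- **collisions** for a family of quadratic polynomials -/
theorem coll_family {p : ℕ} [Fact p.Prime] {K : Type} [DecidableEq K] (U : Finset ι) (nn : ι → ℕ)
    (h D : ι → ZMod p) (N A Dv m : ℕ) (hNA : 2 * N * A < p) (hAN : A ≤ N)
    (hD : ∀ n : ℕ, n ≤ p → n.divisors.card ≤ Dv) (z : ι × (ℕ × ℕ) → K)
    (hz : ∀ w ∈ V U nn N A, ∀ w' ∈ V U nn N A, z w = z w' →
      D w.1 * (w'.2.2 : ZMod p) ^ 2 = D w'.1 * (w.2.2 : ZMod p) ^ 2 ∧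
      (h w.1 + (w.2.1 : ZMod p)) * (w'.2.2 : ZMod p) = (h w'.1 + (w'.2.1 : ZMod p)) * (w.2.2 : ZMod p))
    (hmult : ∀ e : ZMod p, (U.filter fun u => D u = e).card ≤ m) :
    coll (V U nn N A) z ≤ 3 * m * Dv * (U.card * (N * A)) := by
  classical
  have hp1 : 1 ≤ p := (Fact.out : p.Prime).one_lt.le
  have hD1 : 1 ≤ Dv := by
    have := hD 1 hp1
    simpa using this
  rcases Nat.eq_zero_or_pos A with hA0 | hA0
  · subst hA0
    have : V U nn N 0 = ∅ := by unfold V; simp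
    unfold coll
    rw [this]; simp
  have hAp : A < p := by nlinarith
  unfold coll
  set T := (V U nn N A ×ˢ V U nn N A).filter fun w => z w.1 = z w.2 with hT
  have hne : ∀ a : ℕ, 1 ≤ a → a ≤ A → (a : ZMod p) ≠ 0 := by
    intro a h1 h2 h3
    rw [ZMod.natCast_eq_zero_iff] at h3
    have := Nat.le_of_dvd (by omega) h3
    omega
  -- fibres
  have hfib : ∀ k ∈ (U ×ˢ U) ×ˢ (Icc 1 A ×ˢ Icc 1 A),
      (T.filter fun w => ((w.1.1, w.2.1), (w.1.2.2, w.2.2.2)) = k).card ≤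
        if D k.1.1 * (k.2.2 : ZMod p) ^ 2 = D k.1.2 * (k.2.1 : ZMod p) ^ 2 then cc N k.2.1 k.2.2 else 0 := by
    rintro ⟨⟨u, u'⟩, ⟨a, a'⟩⟩ hk
    rcases (T.filter fun w => ((w.1.1, w.2.1), (w.1.2.2, w.2.2.2)) = ((u, u'), (a, a'))).eq_empty_or_nonempty with h0 | ⟨w0, hw0⟩
    · rw [h0]; simp
    have facts : ∀ w ∈ T.filter (fun w => ((w.1.1, w.2.1), (w.1.2.2, w.2.2.2)) = ((u, u'), (a, a'))),
        w.1.1 = u ∧ w.2.1 = u' ∧ w.1.2.2 = a ∧ w.2.2.2 = a' ∧ w.1.2.1 < N ∧ w.2.2.1 < N ∧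
        1 ≤ a ∧ a ≤ A ∧ 1 ≤ a' ∧ a' ≤ A ∧
        D u * (a' : ZMod p) ^ 2 = D u' * (a : ZMod p) ^ 2 ∧
        (h u + (w.1.2.1 : ZMod p)) * (a' : ZMod p) = (h u' + (w.2.2.1 : ZMod p)) * (a : ZMod p) := by
      intro w hw
      rw [mem_filter, hT, mem_filter, mem_product] at hw
      obtain ⟨⟨⟨m1, m2⟩, e1⟩, e2⟩ := hw
      simp only [Prod.mk.injEq] at e2
      obtain ⟨⟨e3, e4⟩, e5, e6⟩ := e2
      obtain ⟨k1, k2⟩ := hz _ m1 _ m2 e1
      rw [V_mem] at m1 m2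
      rw [e3, e4, e5, e6] at k1 k2
      refine ⟨e3, e4, e5, e6, m1.1.2.1, m2.1.2.1, ?_, ?_, ?_, ?_, k1, k2⟩
      · rw [← e5]; exact m1.1.2.2.1
      · rw [← e5]; exact m1.1.2.2.2
      · rw [← e6]; exact m2.1.2.2.1
      · rw [← e6]; exact m2.1.2.2.2
    obtain ⟨f1, f2, f3, f4, f5, f6, f7, f8, f9, f10, f11, f12⟩ := facts w0 hw0
    rw [if_pos f11]
    unfold cc
    apply card_le_card_of_injOn (fun w => ((w.1.2.1 : ℤ) - w0.1.2.1, (w.2.2.1 : ℤ) - w0.2.2.1))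
    · intro w hw
      rw [mem_coe] at hw
      obtain ⟨g1, g2, g3, g4, g5, g6, g7, g8, g9, g10, g11, g12⟩ := facts w hw
      rw [mem_coe, mem_filter, mem_product, mem_Icc, mem_Icc]
      simp only
      refine ⟨⟨⟨by omega, by omega⟩, by omega, by omega⟩, ?_⟩
      -- equality modulo `p`
      have h1 : (((((w.1.2.1 : ℤ) - w0.1.2.1) * (a' : ℤ) - ((w.2.2.1 : ℤ) - w0.2.2.1) * (a : ℤ)) : ℤ) : ZMod p) = 0 := by
        push_cast
        linear_combination g12 - f12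
      rw [ZMod.intCast_zmod_eq_zero_iff_dvd] at h1
      have h2 : (((w.1.2.1 : ℤ) - w0.1.2.1) * (a' : ℤ) - ((w.2.2.1 : ℤ) - w0.2.2.1) * (a : ℤ)) = 0 := by
        apply Int.eq_zero_of_abs_lt_dvd h1
        have b1 : |(w.1.2.1 : ℤ) - w0.1.2.1| ≤ N := by rw [abs_le]; constructor <;> omega
        have b2 : |(w.2.2.1 : ℤ) - w0.2.2.1| ≤ N := by rw [abs_le]; constructor <;> omega
        have b3 : |((w.1.2.1 : ℤ) - w0.1.2.1) * (a' : ℤ)| ≤ N * A := by
          rw [abs_mul, abs_of_nonneg (by positivity : (0:ℤ) ≤ (a' : ℤ))]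
          exact mul_le_mul b1 (by exact_mod_cast f10) (by positivity) (by positivity)
        have b4 : |((w.2.2.1 : ℤ) - w0.2.2.1) * (a : ℤ)| ≤ N * A := by
          rw [abs_mul, abs_of_nonneg (by positivity : (0:ℤ) ≤ (a : ℤ))]
          exact mul_le_mul b2 (by exact_mod_cast f8) (by positivity) (by positivity)
        have b5 : (2 * N * A : ℤ) < p := by exact_mod_cast hNA
        calc _ ≤ |((w.1.2.1 : ℤ) - w0.1.2.1) * (a' : ℤ)| + |((w.2.2.1 : ℤ) - w0.2.2.1) * (a : ℤ)| := abs_sub _ _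
          _ ≤ N * A + N * A := add_le_add b3 b4
          _ < p := by linarith
      linarith
    · intro w hw w' hw' hww
      rw [mem_coe] at hw hw'
      obtain ⟨g1, g2, g3, g4, -⟩ := facts w hw
      obtain ⟨l1, l2, l3, l4, -⟩ := facts w' hw'
      simp only [Prod.mk.injEq] at hww
      obtain ⟨e1, e2⟩ := hww
      ext
      · rw [g1, l1]
      · omega
      · rw [g3, l3]
      · rw [g2, l2]
      · omega
      · rw [g4, l4]
  have h1 := card_eq_sum_card_fiberwise (f := fun w : (ι × (ℕ × ℕ)) × (ι × (ℕ × ℕ)) => ((w.1.1, w.2.1), (w.1.2.2, w.2.2.2)))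
      (s := T) (t := (U ×ˢ U) ×ˢ (Icc 1 A ×ˢ Icc 1 A)) (by
        intro w hw
        rw [mem_coe, hT, mem_filter, mem_product, V_mem, V_mem] at hw
        rw [mem_coe, mem_product, mem_product, mem_product, mem_Icc, mem_Icc]
        obtain ⟨⟨⟨⟨m1, m2, m3, m4⟩, m5⟩, ⟨n1, n2, n3, n4⟩, n5⟩, e⟩ := hw
        exact ⟨⟨m1, n1⟩, ⟨m3, m4⟩, n3, n4⟩)
  rw [h1]
  calc _ ≤ ∑ k ∈ (U ×ˢ U) ×ˢ (Icc 1 A ×ˢ Icc 1 A),
        (if D k.1.1 * (k.2.2 : ZMod p) ^ 2 = D k.1.2 * (k.2.1 : ZMod p) ^ 2 then cc N k.2.1 k.2.2 else 0) := sum_le_sum hfib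
    _ = ∑ aa ∈ Icc 1 A ×ˢ Icc 1 A, ∑ u ∈ U, ∑ u' ∈ U,
        (if D u * (aa.2 : ZMod p) ^ 2 = D u' * (aa.1 : ZMod p) ^ 2 then cc N aa.1 aa.2 else 0) := by
          rw [sum_product_right]
          refine sum_congr rfl fun aa _ => ?_
          rw [sum_product]
    _ ≤ ∑ aa ∈ Icc 1 A ×ˢ Icc 1 A, ∑ u ∈ U, m * cc N aa.1 aa.2 := by
          refine sum_le_sum fun aa haa => sum_le_sum fun u _ => ?_
          rw [← sum_filter, sum_const, smul_eq_mul]
          apply Nat.mul_le_mul_right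
          rw [mem_product, mem_Icc, mem_Icc] at haa
          have ha0 := hne aa.1 haa.1.1 haa.1.2
          refine le_trans (card_le_card ?_) (hmult (D u * (aa.2 : ZMod p) ^ 2 / (aa.1 : ZMod p) ^ 2))
          intro u' hu'
          rw [mem_filter] at hu' ⊢
          refine ⟨hu'.1, ?_⟩
          rw [eq_div_iff (pow_ne_zero 2 ha0)]
          exact hu'.2.symm
    _ = U.card * m * ∑ aa ∈ Icc 1 A ×ˢ Icc 1 A, cc N aa.1 aa.2 := by
          simp_rw [sum_const, smul_eq_mul]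
          rw [mul_sum]
          refine sum_congr rfl fun aa _ => ?_
          ring
    _ ≤ U.card * m * (A ^ 2 + 2 * N * A * Dv) := by
          apply Nat.mul_le_mul_left
          exact sum_cc N A Dv p (by nlinarith) hD
    _ ≤ U.card * m * (3 * (N * A * Dv)) := by
          apply Nat.mul_le_mul_left
          have h5 : A ^ 2 ≤ N * A * Dv := by
            calc A ^ 2 = A * A * 1 := by ring
              _ ≤ N * A * Dv := by gcongr
          nlinarith
    _ = 3 * m * Dv * (U.card * (N * A)) := by ring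

/-- **the main step** of Burgess's method for a family of sums -/
theorem step {K : Type} [Fintype K] [DecidableEq K] (f : ℕ → K → ℂ) (U : Finset ι) (nn : ι → ℕ)
    (N A B r : ℕ) (hr : 1 ≤ r) (hA : 1 ≤ A) (hB : 1 ≤ B) (hnn : ∀ u ∈ U, nn u ≤ N)
    (g : ι → ℤ → ℂ) (hg : ∀ u k, ‖g u k‖ ≤ 1) (z : ι × (ℕ × ℕ) → K) (κ : ι × (ℕ × ℕ) → ℂ) (hκ : ∀ w, ‖κ w‖ ≤ 1)
    (hshift : ∀ w ∈ V U nn N A, ∀ j ∈ range B, g w.1 ((w.2.1 : ℤ) + w.2.2 * (j + 1 : ℕ)) = κ w * f j (z w))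
    {T E Q : ℝ} (hT : ((V U nn N A).card : ℝ) ≤ T) (hT0 : 0 < T) (hE : (coll (V U nn N A) z : ℝ) ≤ E)
    (hQ : ∑ x : K, ‖∑ j ∈ range B, f j x‖ ^ (2 * r) ≤ Q * (B : ℝ) ^ (2 * r)) (hQ0 : 0 ≤ Q) :
    ∑ u ∈ U, ‖∑ y ∈ range (nn u), g u y‖ ≤ 2 * U.card * (A * B) + T / A * (Q * E / T ^ 2) ^ (1 / (2 * r : ℝ)) := by
  classical
  have hA0 : (0:ℝ) < A := by exact_mod_cast hA
  have hB0 : (0:ℝ) < B := by exact_mod_cast hB
  have hhol := holder (V U nn N A) z (fun x => ‖∑ j ∈ range B, f j x‖) (fun x => norm_nonneg _) r hr hT hT0 hE hQ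
  have hr0 : (0:ℝ) < 2 * r := by have : (1:ℝ) ≤ r := by exact_mod_cast hr
                                 linarith
  have hE0 : 0 ≤ E := le_trans (Nat.cast_nonneg _) hE
  have e0 : T * (Q * (B : ℝ) ^ (2 * r) * E / T ^ 2) ^ (1 / (2 * r : ℝ)) =
      T * B * (Q * E / T ^ 2) ^ (1 / (2 * r : ℝ)) := by
    have e : Q * (B : ℝ) ^ (2 * r) * E / T ^ 2 = (B : ℝ) ^ (2 * r) * (Q * E / T ^ 2) := by ring
    rw [e, Real.mul_rpow (by positivity) (by positivity), ← Real.rpow_natCast (B : ℝ) (2 * r), ← Real.rpow_mul (Nat.cast_nonneg B)]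
    push_cast
    rw [mul_one_div_cancel hr0.ne', Real.rpow_one]
    ring
  rw [e0] at hhol
  -- the sum over the shifts
  have h1 : ∀ u ∈ U, (A * B : ℝ) * ‖∑ y ∈ range (nn u), g u y‖ ≤
      ∑ a ∈ Icc 1 A, ∑ y ∈ range (nn u), ‖∑ j ∈ range B, f j (z (u, (y, a)))‖ + (A * B) * (2 * (A * B)) := by
    intro u hu
    have e1 : ((A : ℂ) * B) * ∑ y ∈ range (nn u), g u y =
        ∑ a ∈ Icc 1 A, ∑ j ∈ range B, ∑ y ∈ range (nn u), g u ((y : ℤ) + a * (j + 1 : ℕ)) +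
        ∑ a ∈ Icc 1 A, ∑ j ∈ range B, (∑ y ∈ range (nn u), g u y - ∑ y ∈ range (nn u), g u ((y : ℤ) + a * (j + 1 : ℕ))) := by
      simp_rw [sum_sub_distrib]
      rw [sum_const, sum_const, Nat.card_Icc, card_range, Nat.add_sub_cancel, nsmul_eq_mul, nsmul_eq_mul]
      ring
    have e2 : ∀ a ∈ Icc 1 A, ∑ j ∈ range B, ∑ y ∈ range (nn u), g u ((y : ℤ) + a * (j + 1 : ℕ)) =
        ∑ y ∈ range (nn u), κ (u, (y, a)) * ∑ j ∈ range B, f j (z (u, (y, a))) := by
      intro a ha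
      rw [sum_comm]
      refine sum_congr rfl fun y hy => ?_
      rw [mul_sum]
      refine sum_congr rfl fun j hj => ?_
      rw [mem_Icc] at ha
      rw [mem_range] at hy
      have := hshift (u, (y, a)) (V_mem.2 ⟨⟨hu, lt_of_lt_of_le hy (hnn u hu), ha.1, ha.2⟩, hy⟩) j hj
      exact this
    have b1 : ‖∑ a ∈ Icc 1 A, ∑ j ∈ range B, ∑ y ∈ range (nn u), g u ((y : ℤ) + a * (j + 1 : ℕ))‖ ≤
        ∑ a ∈ Icc 1 A, ∑ y ∈ range (nn u), ‖∑ j ∈ range B, f j (z (u, (y, a)))‖ := by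
      rw [sum_congr rfl e2]
      refine (norm_sum_le _ _).trans (sum_le_sum fun a _ => (norm_sum_le _ _).trans (sum_le_sum fun y _ => ?_))
      rw [norm_mul]
      exact mul_le_of_le_one_left (norm_nonneg _) (hκ _)
    have b2 : ‖∑ a ∈ Icc 1 A, ∑ j ∈ range B, (∑ y ∈ range (nn u), g u y - ∑ y ∈ range (nn u), g u ((y : ℤ) + a * (j + 1 : ℕ)))‖ ≤
        (A * B) * (2 * (A * B)) := by
      have hsh : ∀ a ∈ Icc 1 A, ∀ j ∈ range B,
          ‖∑ y ∈ range (nn u), g u y - ∑ y ∈ range (nn u), g u ((y : ℤ) + a * (j + 1 : ℕ))‖ ≤ 2 * ((A : ℝ) * B) := by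
        intro a ha j hj
        rw [mem_Icc] at ha
        rw [mem_range] at hj
        -- use the backward shift lemma for the reflected function
        have h5 := shift_range (fun k => g u (k + a * (j + 1 : ℕ))) (fun k => hg _ _) (nn u) (a * (j + 1))
        have e5 : ∀ y : ℕ, ((y : ℤ) - ((a * (j + 1) : ℕ) : ℤ)) + a * (j + 1 : ℕ) = y := by
          intro y; push_cast; ring
        simp only [e5] at h5
        rw [norm_sub_rev] at h5
        refine h5.trans ?_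
        have h6 : ((a * (j + 1) : ℕ) : ℝ) ≤ A * B := by
          exact_mod_cast Nat.mul_le_mul ha.2 (by omega)
        linarith
      calc _ ≤ ∑ a ∈ Icc 1 A, ∑ j ∈ range B, 2 * ((A : ℝ) * B) := by
            refine (norm_sum_le _ _).trans (sum_le_sum fun a ha => ?_)
            exact (norm_sum_le _ _).trans (sum_le_sum fun j hj => hsh a ha j hj)
        _ = _ := by
            rw [sum_const, sum_const, Nat.card_Icc, card_range, Nat.add_sub_cancel, nsmul_eq_mul, nsmul_eq_mul]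
            ring
    have e3 : ‖((A : ℂ) * B) * ∑ y ∈ range (nn u), g u y‖ = (A * B) * ‖∑ y ∈ range (nn u), g u y‖ := by
      rw [norm_mul, norm_mul, Complex.norm_natCast, Complex.norm_natCast]
    rw [← e3, e1]
    exact (norm_add_le _ _).trans (add_le_add b1 b2)
  -- summing over the family
  have h2 : ∑ u ∈ U, ∑ a ∈ Icc 1 A, ∑ y ∈ range (nn u), ‖∑ j ∈ range B, f j (z (u, (y, a)))‖ =
      ∑ w ∈ V U nn N A, ‖∑ j ∈ range B, f j (z w)‖ := by
    unfold V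
    rw [sum_filter, sum_product]
    refine sum_congr rfl fun u hu => ?_
    rw [sum_product_right]
    refine sum_congr rfl fun a _ => ?_
    rw [← sum_filter]
    refine sum_congr ?_ fun y _ => rfl
    ext y
    rw [mem_filter, mem_range, mem_range]
    constructor
    · intro h; exact ⟨lt_of_lt_of_le h (hnn u hu), h⟩
    · intro h; exact h.2
  have h3 : (A * B : ℝ) * ∑ u ∈ U, ‖∑ y ∈ range (nn u), g u y‖ ≤
      (A * B : ℝ) * (2 * U.card * (A * B) + T / A * (Q * E / T ^ 2) ^ (1 / (2 * r : ℝ))) := by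
    rw [mul_sum]
    refine (sum_le_sum h1).trans ?_
    rw [sum_add_distrib, h2, sum_const, nsmul_eq_mul]
    have e6 : (A * B : ℝ) * (2 * U.card * (A * B) + T / A * (Q * E / T ^ 2) ^ (1 / (2 * r : ℝ))) =
        T * B * (Q * E / T ^ 2) ^ (1 / (2 * r : ℝ)) + U.card * (A * B * (2 * (A * B))) := by
      field_simp
      ring
    rw [e6]
    exact add_le_add hhol le_rfl
  exact le_of_mul_le_mul_left h3 (by positivity)

end Pool.Agent.H16.CU
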