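import Pool.Agent.H16.CU.C2

set_option autoImplicit false

/-!
# The engine: choice of the parameters for a family of sums
-/

namespace Pool.Agent.H16.CU

open Finset Pool.Agent.H16.SQ

/-- Burgess's method for families of sums attached to a two-parameter family. -/
theorem engine (ε : ℝ) (hε : 0 < ε) (m : ℕ) : ∃ τ : ℝ, 0 < τ ∧ ∃ P : ℕ, ∀ (p : ℕ) [Fact p.Prime], P ≤ p →
    ∀ (K : Type) [Fintype K] [DecidableEq K] (f : ℕ → K → ℂ),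
      (∀ r n : ℕ, 1 ≤ r → n ≤ p → (p : ℝ) ≤ (n : ℝ) ^ r →
        ∑ x : K, ‖∑ j ∈ range n, f j x‖ ^ (2 * r) ≤ ((r : ℝ) ^ (2 * r) + 4 * r ^ 2) * (n : ℝ) ^ (2 * r) * p) →
    ∀ (ι : Type) (U : Finset ι) (nn : ι → ℕ) (h D : ι → ZMod p) (N M : ℕ),
      U.card ≤ M → (∀ u ∈ U, nn u ≤ N) → (p : ℝ) ^ (1 + ε) ≤ M * (N : ℝ) ^ 2 → N ^ 2 ≤ p → M ≤ p →
      (∀ e : ZMod p, (U.filter fun u => D u = e).card ≤ m) →
    ∀ (g : ι → ℤ → ℂ), (∀ u k, ‖g u k‖ ≤ 1) →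
    ∀ (z : ι × (ℕ × ℕ) → K) (κ : ι × (ℕ × ℕ) → ℂ), (∀ w, ‖κ w‖ ≤ 1) →
      (∀ w w', w.1 ∈ U → w'.1 ∈ U → 1 ≤ w.2.2 → w.2.2 < p → 1 ≤ w'.2.2 → w'.2.2 < p → z w = z w' →
        D w.1 * (w'.2.2 : ZMod p) ^ 2 = D w'.1 * (w.2.2 : ZMod p) ^ 2 ∧
        (h w.1 + (w.2.1 : ZMod p)) * (w'.2.2 : ZMod p) = (h w'.1 + (w'.2.1 : ZMod p)) * (w.2.2 : ZMod p)) →
      (∀ w, w.1 ∈ U → 1 ≤ w.2.2 → w.2.2 < p → ∀ j, g w.1 ((w.2.1 : ℤ) + w.2.2 * (j + 1 : ℕ)) = κ w * f j (z w)) →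
      ∑ u ∈ U, ‖∑ y ∈ range (nn u), g u y‖ ≤ (p : ℝ) ^ (-τ) * (M * N) := by
  obtain ⟨r, hr1, hrε⟩ : ∃ r : ℕ, 1 ≤ r ∧ 1 / (r : ℝ) ≤ ε / 8 := by
    obtain ⟨n, hn⟩ := exists_nat_gt (8 / ε)
    have h0 : 0 < 8 / ε := by positivity
    have hn0 : (0:ℝ) < n := h0.trans hn
    refine ⟨n, by exact_mod_cast (by exact_mod_cast hn0 : 0 < n), ?_⟩
    rw [div_lt_iff₀ hε] at hn
    rw [div_le_iff₀ (by positivity)]
    linarith
  have hr0 : (0:ℝ) < r := by exact_mod_cast hr1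
  set κ₀ : ℝ := ε / 8 with hκ₀
  set s : ℝ := 1 / (r : ℝ) with hs
  have hs0 : 0 < s := by positivity
  obtain ⟨C, hC1, hC⟩ := div_bound 1 κ₀ (by positivity)
  set Cr : ℝ := (r : ℝ) ^ (2 * r) + 4 * r ^ 2 with hCr
  have hCr0 : 0 < Cr := by positivity
  set K0 : ℝ := Cr * (3 * m * C) * 4 with hK0
  have hK0p : 0 ≤ K0 := by positivity
  set q : ℝ := 1 / (2 * r : ℝ) with hq
  have hq0 : 0 < q := by positivity
  set η : ℝ := min κ₀ (ε / 2 * q) with hη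
  have hη0 : 0 < η := lt_min (by positivity) (by positivity)
  obtain ⟨P1, hP1⟩ := large_pow (η / 2) (by positivity) (2 + K0 ^ q)
  obtain ⟨P2, hP2⟩ := large_pow κ₀ (by positivity) 3
  obtain ⟨P3, hP3⟩ := large_pow (ε / 4) (by positivity) 2
  refine ⟨η / 2, by positivity, P1 + P2 + P3 + 2, fun p hpF hp K _ _ f hf ι U nn h D N M hUM hnn hMN hN2 hMp hmult
    g hg z κ hκ hz hshift => ?_⟩
  have hpp : p.Prime := hpF.out
  have hp1' : (1:ℝ) < p := by exact_mod_cast hpp.one_lt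
  have hp1 : (1:ℝ) ≤ p := hp1'.le
  have hp0 : (0:ℝ) < p := by linarith
  have mono : ∀ {a b : ℝ}, a ≤ b → (p:ℝ) ^ a ≤ (p:ℝ) ^ b := fun h => Real.rpow_le_rpow_of_exponent_le hp1 h
  have hbig1 := hP1 p (by omega)
  have hbig2 := hP2 p (by omega)
  have hbig3 := hP3 p (by omega)
  have hMp' : (M : ℝ) ≤ p := by exact_mod_cast hMp
  have hN2' : (N : ℝ) ^ 2 ≤ p := by exact_mod_cast hN2
  have hMN0 : 0 < (M : ℝ) * (N : ℝ) ^ 2 := lt_of_lt_of_le (by positivity) hMN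
  have hM0 : (0:ℝ) < M := by
    rcases Nat.eq_zero_or_pos M with h0 | h0
    · rw [h0] at hMN0; simp at hMN0
    · exact_mod_cast h0
  have hN0 : (0:ℝ) < N := by
    rcases Nat.eq_zero_or_pos N with h0 | h0
    · rw [h0] at hMN0; simp at hMN0
    · exact_mod_cast h0
  have hN1 : 1 ≤ N := by
    have : 0 < N := by exact_mod_cast hN0
    omega
  -- `N ≥ p^(ε/2)`
  have hNlow : (p:ℝ) ^ (ε / 2) ≤ N := by
    have h1 : (p:ℝ) ^ ε ≤ (N : ℝ) ^ 2 := by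
      have h2 : (p:ℝ) * (p:ℝ) ^ ε ≤ p * (N : ℝ) ^ 2 := by
        calc (p:ℝ) * (p:ℝ) ^ ε = (p:ℝ) ^ (1 + ε) := by rw [Real.rpow_add hp0, Real.rpow_one]
          _ ≤ M * (N : ℝ) ^ 2 := hMN
          _ ≤ p * (N : ℝ) ^ 2 := by gcongr
      exact le_of_mul_le_mul_left h2 hp0
    have h3 : ((p:ℝ) ^ (ε / 2)) ^ 2 ≤ (N : ℝ) ^ 2 := by
      rw [← Real.rpow_natCast, ← Real.rpow_mul hp0.le]
      have : ε / 2 * ((2:ℕ):ℝ) = ε := by push_cast; ring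
      rw [this]; exact h1
    exact le_of_sq_le_sq h3 hN0.le
  -- `B`
  set B : ℕ := ⌈(p:ℝ) ^ s⌉₊ with hBdef
  have hBs : (p:ℝ) ^ s ≤ B := Nat.le_ceil _
  have hps1 : (1:ℝ) ≤ (p:ℝ) ^ s := Real.one_le_rpow hp1 hs0.le
  have hB2 : (B : ℝ) ≤ 2 * (p:ℝ) ^ s := by
    have := Nat.ceil_lt_add_one (show 0 ≤ (p:ℝ) ^ s by positivity)
    rw [← hBdef] at this
    linarith
  have hB0 : (0:ℝ) < B := by linarith
  have hB1 : 1 ≤ B := by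
    have : (1:ℝ) ≤ B := hps1.trans hBs
    exact_mod_cast this
  have hBpow : (p:ℝ) ≤ (B : ℝ) ^ r := by
    calc (p:ℝ) = ((p:ℝ) ^ s) ^ r := by
          rw [← Real.rpow_natCast, ← Real.rpow_mul hp0.le, hs, one_div, inv_mul_cancel₀ hr0.ne', Real.rpow_one]
      _ ≤ (B : ℝ) ^ r := pow_le_pow_left₀ (by positivity) hBs r
  have hBp : B ≤ p := by
    rw [hBdef]
    apply Nat.ceil_le.2
    calc (p:ℝ) ^ s ≤ (p:ℝ) ^ (1:ℝ) := mono (by rw [hs, div_le_one hr0]; exact_mod_cast hr1)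
      _ = p := Real.rpow_one _
  -- `A`
  set R : ℝ := N / (B * (p:ℝ) ^ κ₀) with hR
  have hpκ : 0 < (p:ℝ) ^ κ₀ := by positivity
  have hR1 : 1 ≤ R := by
    rw [hR, le_div_iff₀ (by positivity), one_mul]
    calc (B:ℝ) * (p:ℝ) ^ κ₀ ≤ (2 * (p:ℝ) ^ s) * (p:ℝ) ^ κ₀ := by gcongr
      _ ≤ ((p:ℝ) ^ (ε / 4) * (p:ℝ) ^ s) * (p:ℝ) ^ κ₀ := by gcongr
      _ = (p:ℝ) ^ (ε / 4 + s + κ₀) := by rw [Real.rpow_add hp0, Real.rpow_add hp0]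
      _ ≤ (p:ℝ) ^ (ε / 2) := mono (by linarith)
      _ ≤ N := hNlow
  set A : ℕ := ⌊R⌋₊ with hAdef
  have hA1 : 1 ≤ A := Nat.le_floor (by simpa using hR1)
  have hAR : (A : ℝ) ≤ R := Nat.floor_le (by linarith)
  have hA0 : (0:ℝ) < A := by exact_mod_cast hA1
  have hRA : R ≤ 2 * A := by
    have h1 := Nat.lt_floor_add_one R
    rw [← hAdef] at h1
    have h2 : (1:ℝ) ≤ A := by exact_mod_cast hA1
    linarith
  have hABN : (A : ℝ) * B * (p:ℝ) ^ κ₀ ≤ N := by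
    calc (A : ℝ) * B * (p:ℝ) ^ κ₀ = A * (B * (p:ℝ) ^ κ₀) := by ring
      _ ≤ R * (B * (p:ℝ) ^ κ₀) := by gcongr
      _ = N := by rw [hR]; field_simp
  have hABN2 : (A : ℝ) * B ≤ N * (p:ℝ) ^ (-κ₀) := by
    rw [Real.rpow_neg hp0.le, ← div_eq_mul_inv, le_div_iff₀ hpκ]; exact hABN
  have hAN : A ≤ N := by
    have h1 : (A : ℝ) ≤ N := by
      have hB1' : (1:ℝ) ≤ B := by exact_mod_cast hB1
      have hk1 : (1:ℝ) ≤ (p:ℝ) ^ κ₀ := Real.one_le_rpow hp1 (by positivity)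
      calc (A : ℝ) = A * 1 * 1 := by ring
        _ ≤ A * B * (p:ℝ) ^ κ₀ := by gcongr
        _ ≤ N := hABN
    exact_mod_cast h1
  have hNAp : 2 * N * A < p := by
    have h5 : (2:ℝ) * N * A < p := by
      have hA' : (A : ℝ) ≤ N * (p:ℝ) ^ (-κ₀) := by
        refine le_trans ?_ hABN2
        have hB1' : (1:ℝ) ≤ B := by exact_mod_cast hB1
        nlinarith
      calc (2:ℝ) * N * A ≤ 2 * N * (N * (p:ℝ) ^ (-κ₀)) := by gcongr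
        _ = 2 * ((N : ℝ) ^ 2 * (p:ℝ) ^ (-κ₀)) := by ring
        _ ≤ 2 * (p * (p:ℝ) ^ (-κ₀)) := by gcongr
        _ < 3 * (p * (p:ℝ) ^ (-κ₀)) := by
            have : 0 < (p:ℝ) * (p:ℝ) ^ (-κ₀) := by positivity
            linarith
        _ ≤ (p:ℝ) ^ κ₀ * (p * (p:ℝ) ^ (-κ₀)) := by gcongr
        _ = p := by
            rw [mul_left_comm, ← Real.rpow_add hp0, add_neg_cancel, Real.rpow_zero, mul_one]
    exact_mod_cast h5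
  have hAp : A < p := by nlinarith
  -- `Dv`
  set Dv : ℕ := ⌊C * (p:ℝ) ^ κ₀⌋₊ with hDdef
  have hD : ∀ n : ℕ, n ≤ p → n.divisors.card ≤ Dv := by
    intro n hn
    apply Nat.le_floor
    exact hC p n hpp.one_lt.le (by simpa using hn)
  have hDle : (Dv : ℝ) ≤ C * (p:ℝ) ^ κ₀ := Nat.floor_le (by positivity)
  -- collisions
  have hVA : ∀ w ∈ V U nn N A, w.1 ∈ U ∧ 1 ≤ w.2.2 ∧ w.2.2 < p := by
    intro w hw
    rw [V_mem] at hw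
    exact ⟨hw.1.1, hw.1.2.2.1, lt_of_le_of_lt hw.1.2.2.2 hAp⟩
  have hcoll := coll_family U nn h D N A Dv m hNAp hAN hD z
    (fun w hw w' hw' hzz => hz w w' (hVA w hw).1 (hVA w' hw').1 (hVA w hw).2.1 (hVA w hw).2.2
      (hVA w' hw').2.1 (hVA w' hw').2.2 hzz) hmult
  set T : ℝ := M * (N * A) with hT
  have hT0 : 0 < T := by positivity
  have hUM' : (U.card : ℝ) ≤ M := by exact_mod_cast hUM
  have hTc : ((V U nn N A).card : ℝ) ≤ T := by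
    have h1 : ((V U nn N A).card : ℝ) ≤ U.card * (N * A) := by exact_mod_cast V_card U nn N A
    refine h1.trans ?_
    rw [hT]; gcongr
  have hE : (coll (V U nn N A) z : ℝ) ≤ 3 * m * Dv * T := by
    have h1 : (coll (V U nn N A) z : ℝ) ≤ 3 * m * Dv * (U.card * (N * A)) := by exact_mod_cast hcoll
    refine h1.trans ?_
    rw [hT]; gcongr
  have hQ := hf r B hr1 hBp hBpow
  have hQ' : ∑ x : K, ‖∑ j ∈ range B, f j x‖ ^ (2 * r) ≤ (Cr * p) * (B : ℝ) ^ (2 * r) := by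
    refine hQ.trans (le_of_eq ?_)
    rw [hCr]; ring
  have hstep := step f U nn N A B r hr1 hA1 hB1 hnn g hg z κ hκ
    (fun w hw j _ => hshift w (hVA w hw).1 (hVA w hw).2.1 (hVA w hw).2.2 j) hTc hT0 hE hQ' (by positivity)
  refine hstep.trans ?_
  -- the inner quantity
  have hlow : (p:ℝ) ^ (1 + 3 * ε / 4) ≤ 4 * T := by
    have h5 : (N : ℝ) ≤ 2 * A * (B * (p:ℝ) ^ κ₀) := by
      calc (N : ℝ) = R * (B * (p:ℝ) ^ κ₀) := by rw [hR]; field_simp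
        _ ≤ 2 * A * (B * (p:ℝ) ^ κ₀) := by gcongr
    have h6 : (N : ℝ) ≤ 4 * A * (p:ℝ) ^ (s + κ₀) := by
      calc (N : ℝ) ≤ 2 * A * (B * (p:ℝ) ^ κ₀) := h5
        _ ≤ 2 * A * ((2 * (p:ℝ) ^ s) * (p:ℝ) ^ κ₀) := by gcongr
        _ = 4 * A * (p:ℝ) ^ (s + κ₀) := by rw [Real.rpow_add hp0]; ring
    have h8 : (p:ℝ) ^ (1 + ε) ≤ 4 * T * (p:ℝ) ^ (s + κ₀) := by
      calc (p:ℝ) ^ (1 + ε) ≤ M * (N : ℝ) ^ 2 := hMN
        _ = M * N * N := by ring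
        _ ≤ M * N * (4 * A * (p:ℝ) ^ (s + κ₀)) := by gcongr
        _ = 4 * T * (p:ℝ) ^ (s + κ₀) := by rw [hT]; ring
    have h9 : (p:ℝ) ^ (1 + 3 * ε / 4) * (p:ℝ) ^ (s + κ₀) ≤ 4 * T * (p:ℝ) ^ (s + κ₀) := by
      refine le_trans ?_ h8
      rw [← Real.rpow_add hp0]
      exact mono (by linarith)
    exact le_of_mul_le_mul_right h9 (by positivity)
  have hinner : (Cr * p) * (3 * m * Dv * T) / T ^ 2 ≤ K0 * (p:ℝ) ^ (-(ε / 2)) := by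
    rw [div_le_iff₀ (by positivity)]
    have h10 : (p:ℝ) ≤ 4 * T * (p:ℝ) ^ (-(3 * ε / 4)) := by
      calc (p:ℝ) = (p:ℝ) ^ (1 + 3 * ε / 4) * (p:ℝ) ^ (-(3 * ε / 4)) := by
            rw [← Real.rpow_add hp0, add_neg_cancel_right, Real.rpow_one]
        _ ≤ 4 * T * (p:ℝ) ^ (-(3 * ε / 4)) := by gcongr
    calc (Cr * p) * (3 * m * Dv * T) ≤ (Cr * (4 * T * (p:ℝ) ^ (-(3 * ε / 4)))) * (3 * m * (C * (p:ℝ) ^ κ₀) * T) := by
          gcongr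
      _ = K0 * ((p:ℝ) ^ (-(3 * ε / 4)) * (p:ℝ) ^ κ₀) * T ^ 2 := by rw [hK0]; ring
      _ ≤ K0 * (p:ℝ) ^ (-(ε / 2)) * T ^ 2 := by
          have : (p:ℝ) ^ (-(3 * ε / 4)) * (p:ℝ) ^ κ₀ ≤ (p:ℝ) ^ (-(ε / 2)) := by
            rw [← Real.rpow_add hp0]; exact mono (by rw [hκ₀]; linarith)
          gcongr
  have hpow : ((Cr * p) * (3 * m * Dv * T) / T ^ 2) ^ (1 / (2 * r : ℝ)) ≤ K0 ^ q * (p:ℝ) ^ (-(ε / 2 * q)) := by
    calc _ ≤ (K0 * (p:ℝ) ^ (-(ε / 2))) ^ q := by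
          rw [← hq]
          exact Real.rpow_le_rpow (by positivity) hinner hq0.le
      _ = K0 ^ q * (p:ℝ) ^ (-(ε / 2 * q)) := by
          rw [Real.mul_rpow hK0p (by positivity), ← Real.rpow_mul hp0.le]
          congr 2; ring
  have hTA : T / A = M * N := by rw [hT]; field_simp
  have hMN' : (0:ℝ) < M * N := by positivity
  have t1 : 2 * (U.card : ℝ) * (A * B) ≤ 2 * ((M * N) * (p:ℝ) ^ (-η)) := by
    calc 2 * (U.card : ℝ) * (A * B) ≤ 2 * M * (N * (p:ℝ) ^ (-κ₀)) := by gcongr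
      _ = 2 * ((M * N) * (p:ℝ) ^ (-κ₀)) := by ring
      _ ≤ 2 * ((M * N) * (p:ℝ) ^ (-η)) := by
          have : (p:ℝ) ^ (-κ₀) ≤ (p:ℝ) ^ (-η) := mono (by linarith [min_le_left κ₀ (ε / 2 * q)])
          gcongr
  have t2 : T / A * ((Cr * p) * (3 * m * Dv * T) / T ^ 2) ^ (1 / (2 * r : ℝ)) ≤ K0 ^ q * ((M * N) * (p:ℝ) ^ (-η)) := by
    rw [hTA]
    calc _ ≤ (M * N : ℝ) * (K0 ^ q * (p:ℝ) ^ (-(ε / 2 * q))) := by gcongr
      _ ≤ (M * N : ℝ) * (K0 ^ q * (p:ℝ) ^ (-η)) := by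
          have : (p:ℝ) ^ (-(ε / 2 * q)) ≤ (p:ℝ) ^ (-η) := mono (by linarith [min_le_right κ₀ (ε / 2 * q)])
          gcongr
      _ = _ := by ring
  calc _ ≤ 2 * ((M * N) * (p:ℝ) ^ (-η)) + K0 ^ q * ((M * N) * (p:ℝ) ^ (-η)) := add_le_add t1 t2
    _ = (2 + K0 ^ q) * ((M * N) * (p:ℝ) ^ (-η)) := by ring
    _ ≤ (p:ℝ) ^ (η / 2) * ((M * N) * (p:ℝ) ^ (-η)) := by gcongr
    _ = (p:ℝ) ^ (-(η / 2)) * (M * N) := by
        rw [mul_left_comm, ← Real.rpow_add hp0, mul_comm]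
        congr 2; ring

end Pool.Agent.H16.CU
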