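import Pool.Agent.H16.CU.C3

set_option autoImplicit false

/-!
# Families of products of two linear factors and of quadratic polynomials
-/

namespace Pool.Agent.H16.CU

open Finset Pool.Agent.H16.SQ

theorem cast_ne_zero {p : ℕ} [Fact p.Prime] {a : ℕ} (h1 : 1 ≤ a) (h2 : a < p) : (a : ZMod p) ≠ 0 := by
  intro h3
  rw [ZMod.natCast_eq_zero_iff] at h3
  have := Nat.le_of_dvd (by omega) h3
  omega

/-- **Burgess's method for families of products of two linear factors.** -/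
theorem pair_family (ε : ℝ) (hε : 0 < ε) (m : ℕ) : ∃ τ : ℝ, 0 < τ ∧ ∃ P : ℕ, ∀ (p : ℕ) [Fact p.Prime], P ≤ p →
    ∀ (χ₁ χ₂ : DirichletCharacter ℂ p), χ₁ ≠ 1 → χ₂ ≠ 1 →
    ∀ (ι : Type) (U : Finset ι) (nn : ι → ℕ) (α β : ι → ZMod p) (N M : ℕ),
      U.card ≤ M → (∀ u ∈ U, nn u ≤ N) → (p : ℝ) ^ (1 + ε) ≤ M * (N : ℝ) ^ 2 → N ^ 2 ≤ p → M ≤ p →
      (∀ e : ZMod p, (U.filter fun u => (α u - β u) ^ 2 = e).card ≤ m) →
      ∑ u ∈ U, ‖∑ y ∈ range (nn u), χ₁ (α u + (y : ZMod p)) * χ₂ (β u + (y : ZMod p))‖ ≤ (p : ℝ) ^ (-τ) * (M * N) := by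
  obtain ⟨τ, hτ, P, hP⟩ := engine ε hε m
  refine ⟨τ, hτ, P, fun p hpF hp χ₁ χ₂ h₁ h₂ ι U nn α β N M hUM hnn hMN hN2 hMp hmult => ?_⟩
  classical
  have := hP p hp (ZMod p × ZMod p) (fun j z => χ₁ (z.1 + ((j : ZMod p) + 1)) * χ₂ (z.2 + ((j : ZMod p) + 1)))
    (fun r n hr hn hpn => moment_pair χ₁ χ₂ h₁ h₂ r n hr hn hpn)
    ι U nn α (fun u => (α u - β u) ^ 2) N M hUM hnn hMN hN2 hMp hmult
    (fun u k => χ₁ (α u + (k : ZMod p)) * χ₂ (β u + (k : ZMod p)))
    (fun u k => by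
      rw [norm_mul]
      exact mul_le_one₀ (DirichletCharacter.norm_le_one _ _) (norm_nonneg _) (DirichletCharacter.norm_le_one _ _))
    (fun w => ((α w.1 + (w.2.1 : ZMod p)) * (w.2.2 : ZMod p)⁻¹, (β w.1 + (w.2.1 : ZMod p)) * (w.2.2 : ZMod p)⁻¹))
    (fun w => χ₁ (w.2.2 : ZMod p) * χ₂ (w.2.2 : ZMod p))
    (fun w => by
      rw [norm_mul]
      exact mul_le_one₀ (DirichletCharacter.norm_le_one _ _) (norm_nonneg _) (DirichletCharacter.norm_le_one _ _))
    (fun w w' _ _ ha1 ha2 ha1' ha2' hzz => by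
      have hne := cast_ne_zero (p := p) ha1 ha2
      have hne' := cast_ne_zero (p := p) ha1' ha2'
      have e1 := (Prod.mk.inj hzz).1
      have e2 := (Prod.mk.inj hzz).2
      have k1 : (α w.1 + (w.2.1 : ZMod p)) * (w'.2.2 : ZMod p) = (α w'.1 + (w'.2.1 : ZMod p)) * (w.2.2 : ZMod p) := by
        rw [← div_eq_mul_inv, ← div_eq_mul_inv, div_eq_div_iff hne hne'] at e1
        exact e1
      have k2 : (β w.1 + (w.2.1 : ZMod p)) * (w'.2.2 : ZMod p) = (β w'.1 + (w'.2.1 : ZMod p)) * (w.2.2 : ZMod p) := by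
        rw [← div_eq_mul_inv, ← div_eq_mul_inv, div_eq_div_iff hne hne'] at e2
        exact e2
      refine ⟨?_, k1⟩
      have k3 : (α w.1 - β w.1) * (w'.2.2 : ZMod p) = (α w'.1 - β w'.1) * (w.2.2 : ZMod p) := by
        linear_combination k1 - k2
      rw [← mul_pow, ← mul_pow, k3])
    (fun w _ ha1 ha2 j => by
      have hne := cast_ne_zero (p := p) ha1 ha2
      simp only
      have e1 : α w.1 + (((w.2.1 : ℤ) + w.2.2 * (j + 1 : ℕ) : ℤ) : ZMod p) =
          (w.2.2 : ZMod p) * ((α w.1 + (w.2.1 : ZMod p)) * (w.2.2 : ZMod p)⁻¹ + ((j : ZMod p) + 1)) := by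
        push_cast
        field_simp
        ring
      have e2 : β w.1 + (((w.2.1 : ℤ) + w.2.2 * (j + 1 : ℕ) : ℤ) : ZMod p) =
          (w.2.2 : ZMod p) * ((β w.1 + (w.2.1 : ZMod p)) * (w.2.2 : ZMod p)⁻¹ + ((j : ZMod p) + 1)) := by
        push_cast
        field_simp
        ring
      rw [e1, e2, map_mul, map_mul]
      ring)
  simpa using this

/-- the norm of `x - s` for a square root `s` of a non-residue -/
theorem norm_sub {p : ℕ} [Fact p.Prime] (hp2 : p ≠ 2) (D : ZMod p) (hD : ¬ IsSquare D) (s : GaloisField p 2)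
    (hs : s ^ 2 = algebraMap (ZMod p) (GaloisField p 2) D) :
    s ^ p = -s ∧ ∀ x : ZMod p, Algebra.norm (ZMod p) (algebraMap (ZMod p) (GaloisField p 2) x - s) = x ^ 2 - D := by
  have hpp : p.Prime := Fact.out
  have hodd : p % 2 = 1 := by
    rcases hpp.eq_two_or_odd with h | h
    · exact absurd h hp2
    · exact h
  have hD0 : D ≠ 0 := by
    rintro rfl
    exact hD ⟨0, by simp⟩
  have h1 : D ^ (p / 2) = -1 := by
    rcases ZMod.pow_div_two_eq_neg_one_or_one p hD0 with h | h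
    · exact absurd ((ZMod.euler_criterion p hD0).2 h) hD
    · exact h
  have h2 : s ^ p = -s := by
    have e : p = 2 * (p / 2) + 1 := by omega
    calc s ^ p = s ^ (2 * (p / 2) + 1) := by rw [← e]
      _ = (s ^ 2) ^ (p / 2) * s := by rw [pow_succ, pow_mul]
      _ = algebraMap (ZMod p) (GaloisField p 2) (D ^ (p / 2)) * s := by rw [hs, map_pow]
      _ = -s := by rw [h1, map_neg, map_one]; ring
  refine ⟨h2, fun x => ?_⟩
  apply (algebraMap (ZMod p) (GaloisField p 2)).injective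
  rw [FiniteField.algebraMap_norm_eq_pow, GaloisField.card p 2 two_ne_zero, Nat.card_eq_fintype_card, ZMod.card]
  have e2 : (p ^ 2 - 1) / (p - 1) = p + 1 := by
    have h3 : p ^ 2 - 1 = (p + 1) * (p - 1) := by
      have := Nat.sq_sub_sq p 1
      simpa using this
    rw [h3]
    exact Nat.mul_div_cancel _ (by have := hpp.two_le; omega)
  rw [e2, pow_succ, sub_pow_char, ← map_pow, ZMod.pow_card, h2, map_sub, map_pow, ← hs]
  ring

theorem exists_sqrt {p : ℕ} [Fact p.Prime] (hp2 : p ≠ 2) (D : ZMod p) :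
    ∃ s : GaloisField p 2, s ^ 2 = algebraMap (ZMod p) (GaloisField p 2) D := by
  have hpp : p.Prime := Fact.out
  have hodd : p % 2 = 1 := by
    rcases hpp.eq_two_or_odd with h | h
    · exact absurd h hp2
    · exact h
  rcases eq_or_ne D 0 with rfl | hD0
  · exact ⟨0, by simp⟩
  have hchar : ringChar (GaloisField p 2) ≠ 2 := by
    rw [ringChar.eq (GaloisField p 2) p]
    exact hp2
  have hne : algebraMap (ZMod p) (GaloisField p 2) D ≠ 0 := by
    rwa [Ne, map_eq_zero]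
  have hsq : IsSquare (algebraMap (ZMod p) (GaloisField p 2) D) := by
    rw [FiniteField.isSquare_iff hchar hne, card_gf, ← map_pow]
    have e : p ^ 2 / 2 = (p - 1) * ((p + 1) / 2) := by
      obtain ⟨k, hk⟩ : ∃ k, p = 2 * k + 1 := ⟨p / 2, by omega⟩
      subst hk
      have h1 : 2 * k + 1 - 1 = 2 * k := by omega
      have h2 : (2 * k + 1 + 1) / 2 = k + 1 := by omega
      rw [h1, h2]
      have h3 : (2 * k + 1) ^ 2 = 2 * (2 * k * (k + 1)) + 1 := by ring
      omega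
    rw [e, pow_mul, ZMod.pow_card_sub_one_eq_one hD0, one_pow, map_one]
  obtain ⟨s, hs⟩ := hsq
  exact ⟨s, by rw [hs, sq]⟩

/-- families of irreducible quadratic polynomials -/
theorem irred_family (ε : ℝ) (hε : 0 < ε) (m : ℕ) : ∃ τ : ℝ, 0 < τ ∧ ∃ P : ℕ, ∀ (p : ℕ) [Fact p.Prime], P ≤ p →
    ∀ (χ : DirichletCharacter ℂ p), χ ≠ 1 →
    ∀ (ι : Type) (U : Finset ι) (nn : ι → ℕ) (h D : ι → ZMod p) (N M : ℕ),
      U.card ≤ M → (∀ u ∈ U, nn u ≤ N) → (p : ℝ) ^ (1 + ε) ≤ M * (N : ℝ) ^ 2 → N ^ 2 ≤ p → M ≤ p →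
      (∀ e : ZMod p, (U.filter fun u => D u = e).card ≤ m) → (∀ u ∈ U, ¬ IsSquare (D u)) →
      ∑ u ∈ U, ‖∑ y ∈ range (nn u), χ ((h u + (y : ZMod p)) ^ 2 - D u)‖ ≤ (p : ℝ) ^ (-τ) * (M * N) := by
  obtain ⟨τ, hτ, P, hP⟩ := engine ε hε m
  refine ⟨τ, hτ, P + 3, fun p hpF hp χ hχ ι U nn h D N M hUM hnn hMN hN2 hMp hmult hirr => ?_⟩
  classical
  have hp2 : p ≠ 2 := by omega
  set am := algebraMap (ZMod p) (GaloisField p 2) with ham
  choose s hs using fun D : ZMod p => exists_sqrt (p := p) hp2 D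
  have hne : ∀ {a : ℕ}, 1 ≤ a → a < p → (a : GaloisField p 2) ≠ 0 := by
    intro a h1 h2 h3
    have h4 : am (a : ZMod p) = 0 := by rw [map_natCast]; exact h3
    rw [map_eq_zero] at h4
    exact cast_ne_zero h1 h2 h4
  have hamp : ∀ x : ZMod p, (am x) ^ p = am x := by
    intro x
    rw [← map_pow, ZMod.pow_card]
  have := hP p (by omega) (GaloisField p 2) (fun j z => normChar χ (z + ((j : GaloisField p 2) + 1)))
    (fun r n hr hn hpn => moment_norm χ hχ r n hr hn hpn)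
    ι U nn h D N M hUM hnn hMN hN2 hMp hmult
    (fun u k => χ ((h u + (k : ZMod p)) ^ 2 - D u))
    (fun u k => DirichletCharacter.norm_le_one _ _)
    (fun w => (am (h w.1 + (w.2.1 : ZMod p)) - s (D w.1)) * (w.2.2 : GaloisField p 2)⁻¹)
    (fun w => normChar χ (w.2.2 : GaloisField p 2))
    (fun w => DirichletCharacter.norm_le_one _ _)
    (fun w w' hw hw' ha1 ha2 ha1' ha2' hzz => by
      have hn := hne ha1 ha2
      have hn' := hne ha1' ha2'
      rw [← div_eq_mul_inv, ← div_eq_mul_inv, div_eq_div_iff hn hn'] at hzz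
      -- the conjugate equation
      have hconj := congrArg (fun x => x ^ p) hzz
      have c1 := (norm_sub hp2 (D w.1) (hirr _ hw) (s (D w.1)) (hs _)).1
      have c2 := (norm_sub hp2 (D w'.1) (hirr _ hw') (s (D w'.1)) (hs _)).1
      have c3 : ∀ a : ℕ, (a : GaloisField p 2) ^ p = a := by
        intro a
        have := hamp (a : ZMod p)
        rwa [map_natCast] at this
      rw [mul_pow, mul_pow, sub_pow_char, sub_pow_char, hamp, hamp, c1, c2, c3, c3] at hconj
      have h2ne : (2 : GaloisField p 2) ≠ 0 := by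
        have := hne (a := 2) (by norm_num) (by omega)
        exact_mod_cast this
      have k1 : am (h w.1 + (w.2.1 : ZMod p)) * (w'.2.2 : GaloisField p 2) =
          am (h w'.1 + (w'.2.1 : ZMod p)) * (w.2.2 : GaloisField p 2) := by
        apply mul_left_cancel₀ h2ne
        linear_combination hzz + hconj
      have k2 : s (D w.1) * (w'.2.2 : GaloisField p 2) = s (D w'.1) * (w.2.2 : GaloisField p 2) := by
        apply mul_left_cancel₀ h2ne
        linear_combination hconj - hzz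
      constructor
      · apply am.injective
        rw [map_mul, map_mul, map_pow, map_pow, map_natCast, map_natCast, ← hs, ← hs, ← mul_pow, ← mul_pow, k2]
      · apply am.injective
        rw [map_mul, map_mul, map_natCast, map_natCast]
        exact k1)
    (fun w hw ha1 ha2 j => by
      have hn := hne ha1 ha2
      rw [← map_mul]
      have e1 : (w.2.2 : GaloisField p 2) * ((am (h w.1 + (w.2.1 : ZMod p)) - s (D w.1)) * (w.2.2 : GaloisField p 2)⁻¹ +
          ((j : GaloisField p 2) + 1)) = am (h w.1 + (((w.2.1 : ℤ) + w.2.2 * (j + 1 : ℕ) : ℤ) : ZMod p)) - s (D w.1) := by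
        push_cast
        rw [map_add, map_add, map_add, map_mul, map_add, map_natCast, map_natCast, map_natCast, map_one]
        field_simp
        ring
      rw [e1, normChar_apply, (norm_sub hp2 (D w.1) (hirr _ hw) (s (D w.1)) (hs _)).2])
  simpa using this

/-- **Burgess's method for families of quadratic polynomials.** -/
theorem quad_family (ε : ℝ) (hε : 0 < ε) (m : ℕ) : ∃ τ : ℝ, 0 < τ ∧ ∃ P : ℕ, ∀ (p : ℕ) [Fact p.Prime], P ≤ p →
    ∀ (χ : DirichletCharacter ℂ p), χ ≠ 1 →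
    ∀ (ι : Type) (U : Finset ι) (nn : ι → ℕ) (h D : ι → ZMod p) (N M : ℕ),
      U.card ≤ M → (∀ u ∈ U, nn u ≤ N) → (p : ℝ) ^ (1 + ε) ≤ M * (N : ℝ) ^ 2 → N ^ 2 ≤ p → M ≤ p →
      (∀ e : ZMod p, (U.filter fun u => D u = e).card ≤ m) →
      ∑ u ∈ U, ‖∑ y ∈ range (nn u), χ ((h u + (y : ZMod p)) ^ 2 - D u)‖ ≤ (p : ℝ) ^ (-τ) * (M * N) := by
  obtain ⟨τ1, hτ1, P1, hP1⟩ := pair_family ε hε m
  obtain ⟨τ2, hτ2, P2, hP2⟩ := irred_family ε hε m
  set η : ℝ := min τ1 τ2 with hη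
  have hη0 : 0 < η := lt_min hτ1 hτ2
  obtain ⟨P3, hP3⟩ := large_pow (η / 2) (by positivity) 2
  refine ⟨η / 2, by positivity, P1 + P2 + P3 + 3, fun p hpF hp χ hχ ι U nn h D N M hUM hnn hMN hN2 hMp hmult => ?_⟩
  classical
  have hpp : p.Prime := hpF.out
  have hp1' : (1:ℝ) < p := by exact_mod_cast hpp.one_lt
  have hp1 : (1:ℝ) ≤ p := hp1'.le
  have hp0 : (0:ℝ) < p := by linarith
  have h2ne : (2 : ZMod p) ≠ 0 := by
    have := cast_ne_zero (p := p) (a := 2) (by norm_num) (by omega)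
    exact_mod_cast this
  have h4ne : (4 : ZMod p) ≠ 0 := by
    have : (4 : ZMod p) = 2 * 2 := by norm_num
    rw [this]; exact mul_ne_zero h2ne h2ne
  rw [← sum_filter_add_sum_filter_not U (fun u => IsSquare (D u))]
  have hroot : ∀ u : ι, ∃ s : ZMod p, IsSquare (D u) → s * s = D u := by
    intro u
    by_cases hu : IsSquare (D u)
    · obtain ⟨s, hs⟩ := hu
      exact ⟨s, fun _ => hs.symm⟩
    · exact ⟨0, fun h => absurd h hu⟩
  choose s hs using hroot
  have b1 := hP1 p (by omega) χ χ hχ hχ ι (U.filter fun u => IsSquare (D u)) nn (fun u => h u - s u) (fun u => h u + s u)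
    N M ((card_filter_le _ _).trans hUM) (fun u hu => hnn u (mem_filter.1 hu).1) hMN hN2 hMp (by
      intro e
      refine le_trans (card_le_card ?_) (hmult (e / 4))
      intro u hu
      rw [mem_filter, mem_filter] at hu
      rw [mem_filter]
      refine ⟨hu.1.1, ?_⟩
      rw [eq_div_iff h4ne, ← hu.2, ← hs u hu.1.2]
      ring)
  have b2 := hP2 p (by omega) χ hχ ι (U.filter fun u => ¬ IsSquare (D u)) nn h D
    N M ((card_filter_le _ _).trans hUM) (fun u hu => hnn u (mem_filter.1 hu).1) hMN hN2 hMp (by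
      intro e
      refine le_trans (card_le_card ?_) (hmult e)
      intro u hu
      rw [mem_filter, mem_filter] at hu
      rw [mem_filter]
      exact ⟨hu.1.1, hu.2⟩) (fun u hu => (mem_filter.1 hu).2)
  have e1 : ∑ u ∈ U.filter (fun u => IsSquare (D u)), ‖∑ y ∈ range (nn u), χ ((h u + (y : ZMod p)) ^ 2 - D u)‖ =
      ∑ u ∈ U.filter (fun u => IsSquare (D u)),
        ‖∑ y ∈ range (nn u), χ (h u - s u + (y : ZMod p)) * χ (h u + s u + (y : ZMod p))‖ := by
    refine sum_congr rfl fun u hu => ?_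
    congr 1
    refine sum_congr rfl fun y _ => ?_
    rw [← map_mul]
    congr 1
    rw [← hs u (mem_filter.1 hu).2]
    ring
  rw [e1]
  have hMN0 : (0:ℝ) ≤ M * N := by positivity
  have c1 : (p : ℝ) ^ (-τ1) ≤ (p:ℝ) ^ (-η) := Real.rpow_le_rpow_of_exponent_le hp1 (by linarith [min_le_left τ1 τ2])
  have c2 : (p : ℝ) ^ (-τ2) ≤ (p:ℝ) ^ (-η) := Real.rpow_le_rpow_of_exponent_le hp1 (by linarith [min_le_right τ1 τ2])
  calc _ ≤ (p : ℝ) ^ (-τ1) * (M * N) + (p : ℝ) ^ (-τ2) * (M * N) := add_le_add b1 b2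
    _ ≤ (p : ℝ) ^ (-η) * (M * N) + (p : ℝ) ^ (-η) * (M * N) := by gcongr
    _ = 2 * ((p : ℝ) ^ (-η) * (M * N)) := by ring
    _ ≤ (p:ℝ) ^ (η / 2) * ((p : ℝ) ^ (-η) * (M * N)) := by
        gcongr
        exact hP3 p (by omega)
    _ = (p : ℝ) ^ (-(η / 2)) * (M * N) := by
        rw [← mul_assoc, ← Real.rpow_add hp0]
        congr 2; ring

end Pool.Agent.H16.CU
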