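import Pool.Agent.H16.CU.C4
import Pool.Agent.H16.SQ.E3

set_option autoImplicit false

/-!
# All lengths; values of quadratic and cubic polynomials
-/

namespace Pool.Agent.H16.CU

open Finset Pool.Agent.H16.SQ Polynomial

/-- cutting the sums into blocks of length `L` -/
theorem split_blocks {ι : Type} (U : Finset ι) (nn : ι → ℕ) (N L : ℕ) (hL : 1 ≤ L) (hnn : ∀ u ∈ U, nn u ≤ N)
    (g : ι → ℕ → ℂ) :
    ∑ u ∈ U, ‖∑ y ∈ range (nn u), g u y‖ ≤
      ∑ k ∈ range (N / L + 1), ∑ u ∈ U, ‖∑ y ∈ range (min L (nn u - k * L)), g u (k * L + y)‖ := by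
  classical
  rw [sum_comm]
  refine sum_le_sum fun u hu => ?_
  have h1 : ∑ y ∈ range (nn u), g u y =
      ∑ k ∈ range (N / L + 1), ∑ y ∈ (range (nn u)).filter (fun y => y / L = k), g u y := by
    rw [sum_fiberwise_of_maps_to]
    intro y hy
    rw [mem_range] at hy ⊢
    have := Nat.div_le_div_right (c := L) (hy.le.trans (hnn u hu))
    omega
  rw [h1]
  refine (norm_sum_le _ _).trans (sum_le_sum fun k _ => le_of_eq ?_)
  congr 1
  have h2 : (range (nn u)).filter (fun y => y / L = k) = (range (min L (nn u - k * L))).image (fun y => k * L + y) := by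
    ext y
    rw [mem_filter, mem_range, mem_image]
    constructor
    · rintro ⟨h3, h4⟩
      have h5 := Nat.div_add_mod y L
      have h6 := Nat.mod_lt y (show 0 < L by omega)
      rw [h4] at h5
      refine ⟨y % L, ?_, ?_⟩
      · rw [mem_range]
        have : L * k = k * L := mul_comm _ _
        omega
      · have : L * k = k * L := mul_comm _ _
        omega
    · rintro ⟨x, hx, rfl⟩
      rw [mem_range] at hx
      have h5 : x < L := lt_of_lt_of_le hx (min_le_left _ _)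
      have h6 : x < nn u - k * L := lt_of_lt_of_le hx (min_le_right _ _)
      refine ⟨by omega, ?_⟩
      rw [mul_comm k L, Nat.mul_add_div (by omega), Nat.div_eq_of_lt h5, add_zero]
  rw [h2, sum_image]
  intro a _ b _ hab
  simp only at hab
  omega

/-- from lengths up to `√p` to all lengths -/
theorem all_lengths (ε : ℝ) (hε : 0 < ε) (τ₀ : ℝ) (hτ₀ : 0 < τ₀) : ∃ τ : ℝ, 0 < τ ∧ ∃ P : ℕ, ∀ p : ℕ, 2 ≤ p → P ≤ p →
    ∀ (ι : Type) (U : Finset ι) (N M : ℕ) (g : ι → ℤ → ℂ),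
      (∀ (nn : ι → ℕ) (t : ℤ) (L : ℕ), (∀ u ∈ U, nn u ≤ L) → (p : ℝ) ^ (1 + ε / 2) ≤ M * (L : ℝ) ^ 2 → L ^ 2 ≤ p →
        ∑ u ∈ U, ‖∑ y ∈ range (nn u), g u (t + y)‖ ≤ (p : ℝ) ^ (-τ₀) * (M * L)) →
      (p : ℝ) ^ (1 + ε) ≤ M * (N : ℝ) ^ 2 → (p : ℝ) ^ ε ≤ M →
      ∀ (nn : ι → ℕ), (∀ u ∈ U, nn u ≤ N) →
      ∑ u ∈ U, ‖∑ y ∈ range (nn u), g u y‖ ≤ (p : ℝ) ^ (-τ) * (M * N) := by
  obtain ⟨P1, hP1⟩ := large_pow (τ₀ / 2) (by positivity) 2
  obtain ⟨P2, hP2⟩ := large_pow (ε / 2) (by positivity) 4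
  refine ⟨τ₀ / 2, by positivity, P1 + P2, fun p hp2 hp ι U N M g hg hMN hM nn hnn => ?_⟩
  have hp1' : (1:ℝ) < p := by exact_mod_cast hp2
  have hp1 : (1:ℝ) ≤ p := hp1'.le
  have hp0 : (0:ℝ) < p := by linarith
  have mono : ∀ {a b : ℝ}, a ≤ b → (p:ℝ) ^ a ≤ (p:ℝ) ^ b := fun h => Real.rpow_le_rpow_of_exponent_le hp1 h
  have hτ2 : 2 * (p : ℝ) ^ (-τ₀) ≤ (p : ℝ) ^ (-(τ₀ / 2)) := by
    calc 2 * (p : ℝ) ^ (-τ₀) ≤ (p : ℝ) ^ (τ₀ / 2) * (p : ℝ) ^ (-τ₀) := by
          gcongr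
          exact hP1 p (by omega)
      _ = (p : ℝ) ^ (-(τ₀ / 2)) := by rw [← Real.rpow_add hp0]; congr 1; ring
  rcases le_or_gt (N ^ 2) p with h | h
  · have h1 := hg nn 0 N hnn ((mono (by linarith)).trans hMN) h
    simp only [zero_add] at h1
    refine h1.trans ?_
    apply mul_le_mul_of_nonneg_right _ (by positivity)
    have : 0 ≤ (p : ℝ) ^ (-τ₀) := by positivity
    linarith
  · set L : ℕ := Nat.sqrt p with hL
    have hL2 : L ^ 2 ≤ p := by rw [sq]; exact Nat.sqrt_le p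
    have hL3 : p < (L + 1) ^ 2 := by rw [sq]; exact Nat.lt_succ_sqrt p
    have hL1 : 1 ≤ L := by
      by_contra hc
      have : L = 0 := by omega
      rw [this] at hL3
      omega
    have hLN : L ≤ N := by
      by_contra hc
      push Not at hc
      have : N ^ 2 ≤ L ^ 2 := Nat.pow_le_pow_left hc.le 2
      omega
    have hL4 : p ≤ 4 * L ^ 2 := by nlinarith
    have hL4' : (p : ℝ) ≤ 4 * (L : ℝ) ^ 2 := by exact_mod_cast hL4
    have hM0 : (0:ℝ) ≤ M := Nat.cast_nonneg _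
    have hcond : (p : ℝ) ^ (1 + ε / 2) ≤ M * (L : ℝ) ^ 2 := by
      have h5 : 4 * (p : ℝ) ^ (1 + ε / 2) ≤ M * p := by
        calc 4 * (p : ℝ) ^ (1 + ε / 2) ≤ (p : ℝ) ^ (ε / 2) * (p : ℝ) ^ (1 + ε / 2) := by
              gcongr
              exact hP2 p (by omega)
          _ = (p : ℝ) ^ ε * p := by
              rw [← Real.rpow_add hp0]
              have : ε / 2 + (1 + ε / 2) = ε + 1 := by ring
              rw [this, Real.rpow_add hp0, Real.rpow_one]
          _ ≤ M * p := by gcongr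
      have h6 : (M : ℝ) * p ≤ M * (4 * (L : ℝ) ^ 2) := by gcongr
      linarith
    refine (split_blocks U nn N L hL1 hnn (fun u y => g u y)).trans ?_
    have h7 : ∀ k ∈ range (N / L + 1), ∑ u ∈ U, ‖∑ y ∈ range (min L (nn u - k * L)), g u ((k * L + y : ℕ) : ℤ)‖ ≤
        (p : ℝ) ^ (-τ₀) * (M * L) := by
      intro k _
      have h8 := hg (fun u => min L (nn u - k * L)) ((k * L : ℕ) : ℤ) L (fun u _ => min_le_left _ _) hcond hL2
      refine le_trans (le_of_eq ?_) h8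
      refine sum_congr rfl fun u _ => ?_
      congr 1
    refine (sum_le_sum h7).trans ?_
    rw [sum_const, card_range, nsmul_eq_mul]
    have h9 : ((N / L + 1 : ℕ) : ℝ) * L ≤ 2 * N := by
      have : (N / L + 1) * L ≤ 2 * N := by
        have := Nat.div_mul_le_self N L
        nlinarith
      exact_mod_cast this
    calc ((N / L + 1 : ℕ) : ℝ) * ((p : ℝ) ^ (-τ₀) * (M * L)) = (p : ℝ) ^ (-τ₀) * (M * (((N / L + 1 : ℕ) : ℝ) * L)) := by ring
      _ ≤ (p : ℝ) ^ (-τ₀) * (M * (2 * N)) := by gcongr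
      _ = (2 * (p : ℝ) ^ (-τ₀)) * (M * N) := by ring
      _ ≤ (p : ℝ) ^ (-(τ₀ / 2)) * (M * N) := by gcongr

/-- **quadratic polynomials, all lengths** -/
theorem quad_all (ε : ℝ) (hε : 0 < ε) (m : ℕ) : ∃ τ : ℝ, 0 < τ ∧ ∃ P : ℕ, ∀ (p : ℕ) [Fact p.Prime], P ≤ p →
    ∀ (χ : DirichletCharacter ℂ p), χ ≠ 1 →
    ∀ (ι : Type) (U : Finset ι) (nn : ι → ℕ) (h D : ι → ZMod p) (N M : ℕ),
      U.card ≤ M → (∀ u ∈ U, nn u ≤ N) → (p : ℝ) ^ (1 + ε) ≤ M * (N : ℝ) ^ 2 → (p : ℝ) ^ ε ≤ M → M ≤ p →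
      (∀ e : ZMod p, (U.filter fun u => D u = e).card ≤ m) →
      ∑ u ∈ U, ‖∑ y ∈ range (nn u), χ ((h u + (y : ZMod p)) ^ 2 - D u)‖ ≤ (p : ℝ) ^ (-τ) * (M * N) := by
  obtain ⟨τ₀, hτ₀, P1, hP1⟩ := quad_family (ε / 2) (by positivity) m
  obtain ⟨τ, hτ, P2, hP2⟩ := all_lengths ε hε τ₀ hτ₀
  refine ⟨τ, hτ, P1 + P2, fun p hpF hp χ hχ ι U nn h D N M hUM hnn hMN hM hMp hmult => ?_⟩
  have := hP2 p hpF.out.two_le (by omega) ι U N M (fun u k => χ ((h u + (k : ZMod p)) ^ 2 - D u))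
    (fun nn' t L hnn' hML hL2 => by
      have h1 := hP1 p (by omega) χ hχ ι U nn' (fun u => h u + (t : ZMod p)) D L M hUM hnn' hML hL2 hMp hmult
      refine le_trans (le_of_eq ?_) h1
      refine sum_congr rfl fun u _ => ?_
      congr 1
      refine sum_congr rfl fun y _ => ?_
      congr 2
      push_cast
      ring) hMN hM nn hnn
  simpa using this

/-- **products of two linear factors, all lengths** -/
theorem pair_all (ε : ℝ) (hε : 0 < ε) (m : ℕ) : ∃ τ : ℝ, 0 < τ ∧ ∃ P : ℕ, ∀ (p : ℕ) [Fact p.Prime], P ≤ p →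
    ∀ (χ₁ χ₂ : DirichletCharacter ℂ p), χ₁ ≠ 1 → χ₂ ≠ 1 →
    ∀ (ι : Type) (U : Finset ι) (nn : ι → ℕ) (α β : ι → ZMod p) (N M : ℕ),
      U.card ≤ M → (∀ u ∈ U, nn u ≤ N) → (p : ℝ) ^ (1 + ε) ≤ M * (N : ℝ) ^ 2 → (p : ℝ) ^ ε ≤ M → M ≤ p →
      (∀ e : ZMod p, (U.filter fun u => (α u - β u) ^ 2 = e).card ≤ m) →
      ∑ u ∈ U, ‖∑ y ∈ range (nn u), χ₁ (α u + (y : ZMod p)) * χ₂ (β u + (y : ZMod p))‖ ≤ (p : ℝ) ^ (-τ) * (M * N) := by
  obtain ⟨τ₀, hτ₀, P1, hP1⟩ := pair_family (ε / 2) (by positivity) m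
  obtain ⟨τ, hτ, P2, hP2⟩ := all_lengths ε hε τ₀ hτ₀
  refine ⟨τ, hτ, P1 + P2, fun p hpF hp χ₁ χ₂ h₁ h₂ ι U nn α β N M hUM hnn hMN hM hMp hmult => ?_⟩
  have := hP2 p hpF.out.two_le (by omega) ι U N M (fun u k => χ₁ (α u + (k : ZMod p)) * χ₂ (β u + (k : ZMod p)))
    (fun nn' t L hnn' hML hL2 => by
      have h1 := hP1 p (by omega) χ₁ χ₂ h₁ h₂ ι U nn' (fun u => α u + (t : ZMod p)) (fun u => β u + (t : ZMod p))
        L M hUM hnn' hML hL2 hMp (by
          intro e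
          refine le_trans (le_of_eq ?_) (hmult e)
          congr 1
          refine filter_congr fun u _ => ?_
          have : α u + (t : ZMod p) - (β u + (t : ZMod p)) = α u - β u := by ring
          rw [this])
      refine le_trans (le_of_eq ?_) h1
      refine sum_congr rfl fun u _ => ?_
      congr 1
      refine sum_congr rfl fun y _ => ?_
      have e1 : α u + ((t + (y : ℤ) : ℤ) : ZMod p) = α u + (t : ZMod p) + (y : ZMod p) := by push_cast; ring
      have e2 : β u + ((t + (y : ℤ) : ℤ) : ZMod p) = β u + (t : ZMod p) + (y : ZMod p) := by push_cast; ring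
      rw [e1, e2]) hMN hM nn hnn
  simpa using this

/-- counting the parameters with a given value by the roots of a polynomial -/
theorem mult_le {p : ℕ} [Fact p.Prime] {ι : Type} (U : Finset ι) (c : ι → ZMod p) (hc : Set.InjOn c (U : Set ι))
    (Q : (ZMod p)[X]) (hQ : Q ≠ 0) (q : ι → Prop) [DecidablePred q] (hq : ∀ u ∈ U, q u → Q.eval (c u) = 0) :
    (U.filter q).card ≤ Q.natDegree := by
  classical
  calc (U.filter q).card ≤ Q.roots.toFinset.card := by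
        apply card_le_card_of_injOn c
        · intro u hu
          rw [mem_coe, mem_filter] at hu
          rw [mem_coe, Multiset.mem_toFinset, mem_roots hQ]
          exact hq u hu.1 hu.2
        · intro a ha b hb hab
          rw [mem_coe, mem_filter] at ha hb
          exact hc (mem_coe.2 ha.1) (mem_coe.2 hb.1) hab
    _ ≤ Multiset.card Q.roots := Multiset.toFinset_card_le _
    _ ≤ Q.natDegree := card_roots' Q

theorem nat_inj {p : ℕ} [Fact p.Prime] (N : ℕ) (hN : N ≤ p) : Set.InjOn (fun x : ℕ => (x : ZMod p)) (range N : Finset ℕ) :=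
  cast_inj N hN

/-- quadratic polynomials -/
theorem deg_two (ε : ℝ) (hε : 0 < ε) : ∃ τ : ℝ, 0 < τ ∧ ∃ P : ℕ, ∀ (p : ℕ) [Fact p.Prime], P ≤ p →
    ∀ (χ : DirichletCharacter ℂ p), χ ≠ 1 → ∀ (a b c d : ZMod p), a ≠ 0 → ∀ N : ℕ, (p : ℝ) ^ (1 / 3 + ε) ≤ N → 2 * N < p →
      ‖∑ x ∈ range N, ∑ y ∈ range N, χ ((a * (x : ZMod p) ^ 2 + b * x + c) - (a * (y : ZMod p) ^ 2 + b * y + c) + d)‖
        ≤ (p : ℝ) ^ (-τ) * (N : ℝ) ^ 2 := by
  obtain ⟨τ, hτ, P, hP⟩ := quad_all ε hε 2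
  refine ⟨τ, hτ, P + 3, fun p hpF hp χ hχ a b c d ha N hN hNp => ?_⟩
  classical
  have hpp : p.Prime := hpF.out
  have hp1' : (1:ℝ) < p := by exact_mod_cast hpp.one_lt
  have hp1 : (1:ℝ) ≤ p := hp1'.le
  have hp0 : (0:ℝ) < p := by linarith
  have h2ne : (2 : ZMod p) ≠ 0 := by
    have := cast_ne_zero (p := p) (a := 2) (by norm_num) (by omega)
    exact_mod_cast this
  set e : ZMod p := b / (2 * a) with he
  have hN3 : (p : ℝ) ^ (1 + ε) ≤ N * (N : ℝ) ^ 2 := by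
    calc (p : ℝ) ^ (1 + ε) ≤ (p : ℝ) ^ (3 * (1 / 3 + ε)) := Real.rpow_le_rpow_of_exponent_le hp1 (by linarith)
      _ = ((p : ℝ) ^ (1 / 3 + ε)) ^ 3 := by
          rw [← Real.rpow_natCast, ← Real.rpow_mul hp0.le]; congr 1; push_cast; ring
      _ ≤ (N : ℝ) ^ 3 := pow_le_pow_left₀ (by positivity) hN 3
      _ = N * (N : ℝ) ^ 2 := by ring
  have hM : (p : ℝ) ^ ε ≤ N := (Real.rpow_le_rpow_of_exponent_le hp1 (by linarith)).trans hN
  have h := hP p (by omega) χ hχ ℕ (range N) (fun _ => N) (fun _ => e) (fun x => ((x : ZMod p) + e) ^ 2 + d / a)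
    N N (by rw [card_range]) (fun _ _ => le_rfl) hN3 hM (by omega) (by
      intro v
      have h5 := mult_le (range N) (fun x : ℕ => (x : ZMod p)) (nat_inj N (by omega))
        ((X + C e) ^ 2 - C (v - d / a)) (by
          apply Polynomial.Monic.ne_zero
          apply Polynomial.Monic.sub_of_left ((monic_X_add_C e).pow 2)
          refine lt_of_le_of_lt degree_C_le ?_
          rw [degree_pow, degree_X_add_C]
          norm_num)
        (fun x : ℕ => ((x : ZMod p) + e) ^ 2 + d / a = v) (by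
          intro x _ hx
          simp only [eval_sub, eval_pow, eval_add, eval_X, eval_C]
          rw [← hx]; ring)
      refine h5.trans ?_
      refine (natDegree_sub_le _ _).trans ?_
      rw [natDegree_C, natDegree_pow, natDegree_X_add_C]
      simp)
  have e1 : ∀ x ∈ range N, ‖∑ y ∈ range N, χ ((a * (x : ZMod p) ^ 2 + b * x + c) - (a * (y : ZMod p) ^ 2 + b * y + c) + d)‖ ≤
      ‖∑ y ∈ range N, χ ((e + (y : ZMod p)) ^ 2 - (((x : ZMod p) + e) ^ 2 + d / a))‖ := by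
    intro x _
    have : ∑ y ∈ range N, χ ((a * (x : ZMod p) ^ 2 + b * x + c) - (a * (y : ZMod p) ^ 2 + b * y + c) + d) =
        χ (-a) * ∑ y ∈ range N, χ ((e + (y : ZMod p)) ^ 2 - (((x : ZMod p) + e) ^ 2 + d / a)) := by
      rw [mul_sum]
      refine sum_congr rfl fun y _ => ?_
      rw [← map_mul]
      congr 1
      rw [he]
      field_simp
      ring
    rw [this, norm_mul]
    exact mul_le_of_le_one_left (norm_nonneg _) (DirichletCharacter.norm_le_one χ _)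
  refine (norm_sum_le _ _).trans ((sum_le_sum e1).trans (h.trans (le_of_eq ?_)))
  ring

/-- cubic polynomials -/
theorem deg_three (ε : ℝ) (hε : 0 < ε) : ∃ τ : ℝ, 0 < τ ∧ ∃ P : ℕ, ∀ (p : ℕ) [Fact p.Prime], P ≤ p →
    ∀ (χ : DirichletCharacter ℂ p), χ ≠ 1 → ∀ (a b c e d : ZMod p), a ≠ 0 → ∀ N : ℕ, (p : ℝ) ^ (1 / 3 + ε) ≤ N → 2 * N < p →
      ‖∑ x ∈ range N, ∑ y ∈ range N, χ ((a * (x : ZMod p) ^ 3 + b * x ^ 2 + c * x + e) -
        (a * (y : ZMod p) ^ 3 + b * y ^ 2 + c * y + e) + d)‖ ≤ (p : ℝ) ^ (-τ) * (N : ℝ) ^ 2 := by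
  obtain ⟨τ₀, hτ₀, P1, hP1⟩ := quad_all ε hε 3
  set η : ℝ := min τ₀ (1 / 3) with hη
  have hη0 : 0 < η := lt_min hτ₀ (by norm_num)
  obtain ⟨P2, hP2⟩ := large_pow (η / 2) (by positivity) 3
  refine ⟨η / 2, by positivity, P1 + P2 + 5, fun p hpF hp χ hχ a b c e d ha N hN hNp => ?_⟩
  classical
  have hpp : p.Prime := hpF.out
  have hp1' : (1:ℝ) < p := by exact_mod_cast hpp.one_lt
  have hp1 : (1:ℝ) ≤ p := hp1'.le
  have hp0 : (0:ℝ) < p := by linarith
  have mono : ∀ {a b : ℝ}, a ≤ b → (p:ℝ) ^ a ≤ (p:ℝ) ^ b := fun h => Real.rpow_le_rpow_of_exponent_le hp1 h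
  have h2ne : (2 : ZMod p) ≠ 0 := by
    have := cast_ne_zero (p := p) (a := 2) (by norm_num) (by omega)
    exact_mod_cast this
  have h3ne : (3 : ZMod p) ≠ 0 := by
    have := cast_ne_zero (p := p) (a := 3) (by norm_num) (by omega)
    exact_mod_cast this
  have h12ne : (12 : ZMod p) ≠ 0 := by
    have : (12 : ZMod p) = 2 * 2 * 3 := by norm_num
    rw [this]; exact mul_ne_zero (mul_ne_zero h2ne h2ne) h3ne
  have h9ne : (9 : ZMod p) ≠ 0 := by
    have : (9 : ZMod p) = 3 * 3 := by norm_num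
    rw [this]; exact mul_ne_zero h3ne h3ne
  have hN0 : (0:ℝ) < N := lt_of_lt_of_le (by positivity) hN
  have hN3 : (p : ℝ) ^ (1 + ε) ≤ ((2 * N : ℕ) : ℝ) * (N : ℝ) ^ 2 := by
    calc (p : ℝ) ^ (1 + ε) ≤ (p : ℝ) ^ (3 * (1 / 3 + ε)) := mono (by linarith)
      _ = ((p : ℝ) ^ (1 / 3 + ε)) ^ 3 := by
          rw [← Real.rpow_natCast, ← Real.rpow_mul hp0.le]; congr 1; push_cast; ring
      _ ≤ (N : ℝ) ^ 3 := pow_le_pow_left₀ (by positivity) hN 3
      _ ≤ ((2 * N : ℕ) : ℝ) * (N : ℝ) ^ 2 := by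
          push_cast
          have : 0 ≤ (N : ℝ) ^ 3 := by positivity
          nlinarith
  have hM : (p : ℝ) ^ ε ≤ ((2 * N : ℕ) : ℝ) := by
    push_cast
    have := (mono (a := ε) (b := 1 / 3 + ε) (by linarith)).trans hN
    linarith
  set U : Finset ℤ := (Icc (-(N:ℤ)) N).erase 0 with hU
  have hUcard : U.card ≤ 2 * N := by
    rw [hU, card_erase_of_mem (by rw [mem_Icc]; constructor <;> omega), Int.card_Icc]
    omega
  have hUmem : ∀ u ∈ U, u ≠ 0 ∧ -(N:ℤ) ≤ u ∧ u ≤ N := by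
    intro u hu
    rw [hU, mem_erase, mem_Icc] at hu
    exact ⟨hu.1, hu.2.1, hu.2.2⟩
  have hune : ∀ u ∈ U, (u : ZMod p) ≠ 0 := by
    intro u hu
    obtain ⟨h1, h2, h3⟩ := hUmem u hu
    apply cast_ne u h1
    rw [abs_lt]; constructor <;> omega
  have hinj : Set.InjOn (fun u : ℤ => (u : ZMod p)) (U : Set ℤ) := by
    intro u hu v hv huv
    obtain ⟨h1, h2, h3⟩ := hUmem u hu
    obtain ⟨k1, k2, k3⟩ := hUmem v hv
    by_contra hne
    have h4 : ((u - v : ℤ) : ZMod p) ≠ 0 := by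
      apply cast_ne
      · omega
      · rw [abs_lt]; constructor <;> omega
    apply h4
    simp only at huv
    rw [Int.cast_sub, huv, sub_self]
  -- the fibres of the difference
  have hfibre : ∀ u : ℤ, ∃ s n : ℕ, u ∈ U → (n ≤ N ∧ (range N ×ˢ range N).filter (fun v : ℕ × ℕ => (v.1 : ℤ) - v.2 = u) =
      (range n).image (fun y => ((((s + y : ℕ) : ℤ) + u).toNat, s + y)) ∧
      ∀ y < n, 0 ≤ ((s + y : ℕ) : ℤ) + u) := by
    intro u
    by_cases hu : u ∈ U
    · obtain ⟨h1, h2, h3⟩ := hUmem u hu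
      rcases lt_or_gt_of_ne h1 with h | h
      · refine ⟨(-u).toNat, (N + u).toNat, fun _ => ⟨by omega, ?_, by intro y hy; omega⟩⟩
        ext v
        rw [mem_filter, mem_product, mem_range, mem_range, mem_image]
        constructor
        · rintro ⟨⟨h1, h2⟩, h4⟩
          refine ⟨v.2 - (-u).toNat, by rw [mem_range]; omega, ?_⟩
          ext
          · simp only; omega
          · simp only; omega
        · rintro ⟨y, hy, rfl⟩
          rw [mem_range] at hy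
          simp only
          omega
      · refine ⟨0, (N - u).toNat, fun _ => ⟨by omega, ?_, by intro y hy; omega⟩⟩
        ext v
        rw [mem_filter, mem_product, mem_range, mem_range, mem_image]
        constructor
        · rintro ⟨⟨h1, h2⟩, h4⟩
          refine ⟨v.2, by rw [mem_range]; omega, ?_⟩
          ext
          · simp only; omega
          · simp only; omega
        · rintro ⟨y, hy, rfl⟩
          rw [mem_range] at hy
          simp only
          omega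
    · exact ⟨0, 0, fun h => absurd h hu⟩
  choose s n hsn using hfibre
  set cu : ℤ → ZMod p := fun u => (u : ZMod p) / 2 + b / (3 * a) with hcu
  set Du : ℤ → ZMod p := fun u => -(u : ZMod p) ^ 2 / 12 + (b ^ 2 - 3 * a * c) / (9 * a ^ 2) - d / (3 * a * u) with hDu
  have h := hP1 p (by omega) χ hχ ℤ U n (fun u => (s u : ZMod p) + cu u) Du
    N (2 * N) hUcard (fun u hu => (hsn u hu).1) hN3 hM (by omega) (by
      intro v
      set Q : (ZMod p)[X] := C (1 / 12) * X ^ 3 + C 0 * X ^ 2 + C (v - (b ^ 2 - 3 * a * c) / (9 * a ^ 2)) * X + C (d / (3 * a)) with hQ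
      have hlead : (1 / 12 : ZMod p) ≠ 0 := one_div_ne_zero h12ne
      have hdeg : Q.natDegree = 3 := natDegree_cubic hlead
      have hQ0 : Q ≠ 0 := by
        intro h0
        rw [h0, natDegree_zero] at hdeg
        omega
      have h5 := mult_le U (fun u : ℤ => (u : ZMod p)) hinj Q hQ0 (fun u : ℤ => Du u = v) (by
          intro u hu hx
          have hu0 := hune u hu
          rw [hQ, ← hx, hDu]
          simp only [eval_add, eval_mul, eval_pow, eval_X, eval_C]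
          field_simp
          ring)
      rw [hdeg] at h5
      exact h5)
  -- the double sum
  rw [← sum_product']
  have h1 : ∑ v ∈ range N ×ˢ range N, χ ((a * (v.1 : ZMod p) ^ 3 + b * v.1 ^ 2 + c * v.1 + e) -
        (a * (v.2 : ZMod p) ^ 3 + b * v.2 ^ 2 + c * v.2 + e) + d) =
      ∑ u ∈ insert 0 U, ∑ v ∈ (range N ×ˢ range N).filter (fun v : ℕ × ℕ => (v.1 : ℤ) - v.2 = u),
        χ ((a * (v.1 : ZMod p) ^ 3 + b * v.1 ^ 2 + c * v.1 + e) -
        (a * (v.2 : ZMod p) ^ 3 + b * v.2 ^ 2 + c * v.2 + e) + d) := by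
    rw [sum_fiberwise_of_maps_to]
    intro v hv
    rw [mem_product, mem_range, mem_range] at hv
    rw [mem_insert, hU, mem_erase, mem_Icc]
    omega
  rw [h1, sum_insert (by rw [hU]; simp)]
  have h0 : ‖∑ v ∈ (range N ×ˢ range N).filter (fun v : ℕ × ℕ => (v.1 : ℤ) - v.2 = 0),
        χ ((a * (v.1 : ZMod p) ^ 3 + b * v.1 ^ 2 + c * v.1 + e) -
        (a * (v.2 : ZMod p) ^ 3 + b * v.2 ^ 2 + c * v.2 + e) + d)‖ ≤ N := by
    refine (norm_sum_le _ _).trans ((sum_le_sum fun v _ => DirichletCharacter.norm_le_one χ _).trans ?_)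
    rw [sum_const, nsmul_eq_mul, mul_one]
    have : ((range N ×ˢ range N).filter (fun v : ℕ × ℕ => (v.1 : ℤ) - v.2 = 0)).card ≤ (range N).card := by
      apply card_le_card_of_injOn (fun v => v.1)
      · intro v hv
        rw [mem_coe, mem_filter, mem_product] at hv
        exact hv.1.1
      · intro v hv w hw hvw
        rw [mem_coe, mem_filter] at hv hw
        have k1 := hv.2
        have k2 := hw.2
        simp only at hvw
        ext
        · exact hvw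
        · omega
    rw [card_range] at this
    exact_mod_cast this
  have h2 : ∀ u ∈ U, ‖∑ v ∈ (range N ×ˢ range N).filter (fun v : ℕ × ℕ => (v.1 : ℤ) - v.2 = u),
        χ ((a * (v.1 : ZMod p) ^ 3 + b * v.1 ^ 2 + c * v.1 + e) -
        (a * (v.2 : ZMod p) ^ 3 + b * v.2 ^ 2 + c * v.2 + e) + d)‖ ≤
      ‖∑ y ∈ range (n u), χ (((s u : ZMod p) + cu u + (y : ZMod p)) ^ 2 - Du u)‖ := by
    intro u hu
    obtain ⟨g1, g2, g3⟩ := hsn u hu
    have hu0 := hune u hu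
    rw [g2, sum_image]
    · have e5 : ∑ y ∈ range (n u), χ ((a * (((((s u + y : ℕ) : ℤ) + u).toNat : ℕ) : ZMod p) ^ 3 +
          b * (((((s u + y : ℕ) : ℤ) + u).toNat : ℕ) : ZMod p) ^ 2 + c * (((((s u + y : ℕ) : ℤ) + u).toNat : ℕ) : ZMod p) + e) -
          (a * ((s u + y : ℕ) : ZMod p) ^ 3 + b * ((s u + y : ℕ) : ZMod p) ^ 2 + c * ((s u + y : ℕ) : ZMod p) + e) + d) =
          χ (3 * a * u) * ∑ y ∈ range (n u), χ (((s u : ZMod p) + cu u + (y : ZMod p)) ^ 2 - Du u) := by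
        rw [mul_sum]
        refine sum_congr rfl fun y hy => ?_
        rw [mem_range] at hy
        rw [← map_mul]
        congr 1
        have e6 : (((((s u + y : ℕ) : ℤ) + u).toNat : ℕ) : ZMod p) = ((s u + y : ℕ) : ZMod p) + (u : ZMod p) := by
          have : ((((((s u + y : ℕ) : ℤ) + u).toNat : ℕ) : ℤ) : ZMod p) = ((((s u + y : ℕ) : ℤ) + u : ℤ) : ZMod p) := by
            rw [Int.toNat_of_nonneg (g3 y hy)]
          rw [Int.cast_natCast] at this
          rw [this]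
          push_cast
          ring
        rw [e6, hcu, hDu]
        simp only
        push_cast
        field_simp
        ring
      rw [e5, norm_mul]
      exact mul_le_of_le_one_left (norm_nonneg _) (DirichletCharacter.norm_le_one χ _)
    · intro x _ y _ hxy
      have := (Prod.mk.inj hxy).2
      omega
  have h3 : ‖∑ u ∈ U, ∑ v ∈ (range N ×ˢ range N).filter (fun v : ℕ × ℕ => (v.1 : ℤ) - v.2 = u),
        χ ((a * (v.1 : ZMod p) ^ 3 + b * v.1 ^ 2 + c * v.1 + e) -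
        (a * (v.2 : ZMod p) ^ 3 + b * v.2 ^ 2 + c * v.2 + e) + d)‖ ≤ (p : ℝ) ^ (-τ₀) * (((2 * N : ℕ) : ℝ) * N) :=
    (norm_sum_le _ _).trans ((sum_le_sum h2).trans h)
  refine (norm_add_le _ _).trans ((add_le_add h0 h3).trans ?_)
  push_cast
  have hNη : (N : ℝ) ≤ (N : ℝ) ^ 2 * (p:ℝ) ^ (-η) := by
    have h11 : (p:ℝ) ^ η ≤ N := by
      refine le_trans (mono ?_) hN
      linarith [min_le_right τ₀ (1 / 3 : ℝ)]
    rw [Real.rpow_neg hp0.le, ← div_eq_mul_inv, le_div_iff₀ (by positivity), sq]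
    exact mul_le_mul_of_nonneg_left h11 hN0.le
  have c1 : (p : ℝ) ^ (-τ₀) ≤ (p:ℝ) ^ (-η) := mono (by linarith [min_le_left τ₀ (1 / 3 : ℝ)])
  calc (N : ℝ) + (p : ℝ) ^ (-τ₀) * (2 * N * N) ≤ (N : ℝ) ^ 2 * (p:ℝ) ^ (-η) + (p : ℝ) ^ (-η) * (2 * N * N) := by gcongr
    _ = 3 * ((N : ℝ) ^ 2 * (p:ℝ) ^ (-η)) := by ring
    _ ≤ (p:ℝ) ^ (η / 2) * ((N : ℝ) ^ 2 * (p:ℝ) ^ (-η)) := by
        gcongr
        exact hP2 p (by omega)
    _ = (p : ℝ) ^ (-(η / 2)) * (N : ℝ) ^ 2 := by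
        rw [mul_left_comm, ← Real.rpow_add hp0, mul_comm]
        congr 2; ring

end Pool.Agent.H16.CU
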