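import Pool.Agent.H16.CU.C5

set_option autoImplicit false

/-!
# Moebius images of intervals
-/

namespace Pool.Agent.H16.CU

open Finset Pool.Agent.H16.SQ Polynomial

/-- the basic case `b / (x + e)` -/
theorem recip (ε : ℝ) (hε : 0 < ε) : ∃ τ : ℝ, 0 < τ ∧ ∃ P : ℕ, ∀ (p : ℕ) [Fact p.Prime], P ≤ p →
    ∀ (χ : DirichletCharacter ℂ p), χ ≠ 1 → ∀ (b e d : ZMod p), b ≠ 0 → ∀ N : ℕ, (p : ℝ) ^ (1 / 3 + ε) ≤ N → 2 * N < p →
      (∀ x < N, (x : ZMod p) + e ≠ 0) →
      ∑ x ∈ range N, ‖∑ y ∈ range N, χ (b * ((x : ZMod p) + e)⁻¹ - b * ((y : ZMod p) + e)⁻¹ + d)‖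
        ≤ (p : ℝ) ^ (-τ) * (N : ℝ) ^ 2 := by
  obtain ⟨τ₀, hτ₀, P1, hP1⟩ := pair_all ε hε 2
  set η : ℝ := min τ₀ (1 / 3) with hη
  have hη0 : 0 < η := lt_min hτ₀ (by norm_num)
  obtain ⟨P2, hP2⟩ := large_pow (η / 2) (by positivity) 2
  refine ⟨η / 2, by positivity, P1 + P2 + 3, fun p hpF hp χ hχ b e d hb N hN hNp hpole => ?_⟩
  classical
  have hpp : p.Prime := hpF.out
  have hp1' : (1:ℝ) < p := by exact_mod_cast hpp.one_lt
  have hp1 : (1:ℝ) ≤ p := hp1'.le
  have hp0 : (0:ℝ) < p := by linarith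
  have mono : ∀ {a b : ℝ}, a ≤ b → (p:ℝ) ^ a ≤ (p:ℝ) ^ b := fun h => Real.rpow_le_rpow_of_exponent_le hp1 h
  have hN0 : (0:ℝ) < N := lt_of_lt_of_le (by positivity) hN
  have hN3 : (p : ℝ) ^ (1 + ε) ≤ N * (N : ℝ) ^ 2 := by
    calc (p : ℝ) ^ (1 + ε) ≤ (p : ℝ) ^ (3 * (1 / 3 + ε)) := mono (by linarith)
      _ = ((p : ℝ) ^ (1 / 3 + ε)) ^ 3 := by
          rw [← Real.rpow_natCast, ← Real.rpow_mul hp0.le]; congr 1; push_cast; ring
      _ ≤ (N : ℝ) ^ 3 := pow_le_pow_left₀ (by positivity) hN 3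
      _ = N * (N : ℝ) ^ 2 := by ring
  have hM : (p : ℝ) ^ ε ≤ N := (mono (by linarith)).trans hN
  -- the shift attached to `x`
  set t : ℕ → ZMod p := fun x => b * ((x : ZMod p) + e) * (b + d * ((x : ZMod p) + e))⁻¹ with ht
  set U : Finset ℕ := (range N).filter fun x => b + d * ((x : ZMod p) + e) ≠ 0 with hU
  have hχinv : χ⁻¹ ≠ 1 := by
    intro h
    exact hχ (inv_eq_one.1 h)
  have hinj := nat_inj (p := p) N (by omega)
  have h := hP1 p (by omega) χ χ⁻¹ hχ hχinv ℕ U (fun _ => N) (fun x => e - t x) (fun _ => e)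
    N N ((card_filter_le _ _).trans (by rw [card_range])) (fun _ _ => le_rfl) hN3 hM (by omega) (by
      intro v
      -- `t² = v`, i.e. `b² (x+e)² = v (b + d(x+e))²`
      set Q : (ZMod p)[X] := C (b ^ 2) * (X + C e) ^ 2 - C v * (C b + C d * (X + C e)) ^ 2 with hQ
      have hQdeg : Q.natDegree ≤ 2 := by
        refine (natDegree_sub_le _ _).trans (max_le ?_ ?_)
        · refine (natDegree_C_mul_le _ _).trans ?_
          rw [natDegree_pow, natDegree_X_add_C]
        · refine (natDegree_C_mul_le _ _).trans ?_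
          refine (natDegree_pow_le).trans ?_
          have : (C b + C d * (X + C e)).natDegree ≤ 1 := by
            refine (natDegree_add_le _ _).trans (max_le (by rw [natDegree_C]; omega) ?_)
            refine (natDegree_C_mul_le _ _).trans ?_
            rw [natDegree_X_add_C]
          omega
      have hQ0 : Q ≠ 0 := by
        intro h0
        have e1 : Q.eval (-e) = -(v * b ^ 2) := by
          rw [hQ]
          simp only [eval_sub, eval_mul, eval_pow, eval_add, eval_X, eval_C]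
          ring
        rw [h0, eval_zero] at e1
        have hv : v = 0 := by
          have h5 : v * b ^ 2 = 0 := by
            have := e1
            rw [eq_comm, neg_eq_zero] at this
            exact this
          rcases mul_eq_zero.1 h5 with h6 | h6
          · exact h6
          · exact absurd h6 (pow_ne_zero 2 hb)
        have e2 : Q.eval (1 - e) = b ^ 2 - v * (b + d) ^ 2 := by
          rw [hQ]
          simp only [eval_sub, eval_mul, eval_pow, eval_add, eval_X, eval_C]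
          ring
        rw [h0, eval_zero, hv, zero_mul, sub_zero] at e2
        exact pow_ne_zero 2 hb e2.symm
      have h5 := mult_le U (fun x : ℕ => (x : ZMod p)) (hinj.mono (by
          intro x hx
          rw [hU, mem_coe, mem_filter] at hx
          exact mem_coe.2 hx.1)) Q hQ0 (fun x : ℕ => (e - t x - e) ^ 2 = v) (by
          intro x hx hxv
          rw [hU, mem_filter] at hx
          have hne := hx.2
          have htw : t x * (b + d * ((x : ZMod p) + e)) = b * ((x : ZMod p) + e) := by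
            rw [ht]
            simp only
            rw [mul_assoc, inv_mul_cancel₀ hne, mul_one]
          rw [hQ, ← hxv]
          simp only [eval_sub, eval_mul, eval_pow, eval_add, eval_X, eval_C]
          linear_combination (-(t x * (b + d * ((x : ZMod p) + e)) + b * ((x : ZMod p) + e))) * htw)
      exact h5.trans hQdeg)
  -- comparison of the inner sums
  have h2 : ∀ x ∈ U, ‖∑ y ∈ range N, χ (b * ((x : ZMod p) + e)⁻¹ - b * ((y : ZMod p) + e)⁻¹ + d)‖ ≤
      ‖∑ y ∈ range N, χ (e - t x + (y : ZMod p)) * χ⁻¹ (e + (y : ZMod p))‖ := by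
    intro x hx
    rw [hU, mem_filter, mem_range] at hx
    obtain ⟨hxN, hne⟩ := hx
    have hx0 := hpole x hxN
    have : ∑ y ∈ range N, χ (b * ((x : ZMod p) + e)⁻¹ - b * ((y : ZMod p) + e)⁻¹ + d) =
        χ ((b + d * ((x : ZMod p) + e)) * ((x : ZMod p) + e)⁻¹) *
          ∑ y ∈ range N, χ (e - t x + (y : ZMod p)) * χ⁻¹ (e + (y : ZMod p)) := by
      rw [mul_sum]
      refine sum_congr rfl fun y hy => ?_
      rw [mem_range] at hy
      have hy0 := hpole y hy
      have hy0' : e + (y : ZMod p) ≠ 0 := by rw [add_comm]; exact hy0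
      rw [MulChar.inv_apply_eq_inv', ← mul_assoc, ← map_mul]
      have hχy : χ (e + (y : ZMod p)) ≠ 0 := by
        intro h0
        have := map_mul χ (e + (y : ZMod p)) (e + (y : ZMod p))⁻¹
        rw [mul_inv_cancel₀ hy0', map_one, h0, zero_mul] at this
        exact one_ne_zero this
      rw [eq_mul_inv_iff_mul_eq₀ hχy, ← map_mul]
      congr 1
      have htw : t x * (b + d * ((x : ZMod p) + e)) = b * ((x : ZMod p) + e) := by
        rw [ht]
        simp only
        rw [mul_assoc, inv_mul_cancel₀ hne, mul_one]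
      have hX : ((x : ZMod p) + e)⁻¹ * ((x : ZMod p) + e) = 1 := inv_mul_cancel₀ hx0
      have hY : ((y : ZMod p) + e)⁻¹ * ((y : ZMod p) + e) = 1 := inv_mul_cancel₀ hy0
      linear_combination (-b) * hY + (-d * (e + (y : ZMod p)) + b) * hX + ((x : ZMod p) + e)⁻¹ * htw
    rw [this, norm_mul]
    exact mul_le_of_le_one_left (norm_nonneg _) (DirichletCharacter.norm_le_one χ _)
  rw [← sum_filter_add_sum_filter_not (range N) (fun x : ℕ => b + d * ((x : ZMod p) + e) ≠ 0)]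
  have h3 : ∑ x ∈ (range N).filter (fun x : ℕ => ¬ (b + d * ((x : ZMod p) + e) ≠ 0)),
      ‖∑ y ∈ range N, χ (b * ((x : ZMod p) + e)⁻¹ - b * ((y : ZMod p) + e)⁻¹ + d)‖ ≤ N := by
    have hc : ((range N).filter (fun x : ℕ => ¬ (b + d * ((x : ZMod p) + e) ≠ 0))).card ≤ 1 := by
      rw [card_le_one]
      intro x hx y hy
      rw [mem_filter, not_not] at hx hy
      apply hinj (mem_coe.2 hx.1) (mem_coe.2 hy.1)
      have hd : d ≠ 0 := by
        intro h0
        rw [h0, zero_mul, add_zero] at hx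
        exact hb hx.2
      have : d * ((x : ZMod p) - (y : ZMod p)) = 0 := by linear_combination hx.2 - hy.2
      rcases mul_eq_zero.1 this with h5 | h5
      · exact absurd h5 hd
      · exact sub_eq_zero.1 h5
    have hb1 : ∀ x ∈ (range N).filter (fun x : ℕ => ¬ (b + d * ((x : ZMod p) + e) ≠ 0)),
        ‖∑ y ∈ range N, χ (b * ((x : ZMod p) + e)⁻¹ - b * ((y : ZMod p) + e)⁻¹ + d)‖ ≤ N := by
      intro x _
      refine (norm_sum_le _ _).trans ((sum_le_sum fun v _ => DirichletCharacter.norm_le_one χ _).trans ?_)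
      rw [sum_const, nsmul_eq_mul, mul_one, card_range]
    refine (sum_le_sum hb1).trans ?_
    rw [sum_const, nsmul_eq_mul]
    have hc' : (((range N).filter (fun x : ℕ => ¬ (b + d * ((x : ZMod p) + e) ≠ 0))).card : ℝ) ≤ 1 := by exact_mod_cast hc
    exact mul_le_of_le_one_left hN0.le hc'
  refine (add_le_add ((sum_le_sum h2).trans h) h3).trans ?_
  have hNη : (N : ℝ) ≤ (N : ℝ) ^ 2 * (p:ℝ) ^ (-η) := by
    have h11 : (p:ℝ) ^ η ≤ N := by
      refine le_trans (mono ?_) hN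
      linarith [min_le_right τ₀ (1 / 3 : ℝ)]
    rw [Real.rpow_neg hp0.le, ← div_eq_mul_inv, le_div_iff₀ (by positivity), sq]
    exact mul_le_mul_of_nonneg_left h11 hN0.le
  have c1 : (p : ℝ) ^ (-τ₀) ≤ (p:ℝ) ^ (-η) := mono (by linarith [min_le_left τ₀ (1 / 3 : ℝ)])
  calc (p : ℝ) ^ (-τ₀) * (N * N) + (N : ℝ) ≤ (p : ℝ) ^ (-η) * (N * N) + (N : ℝ) ^ 2 * (p:ℝ) ^ (-η) := by gcongr
    _ = 2 * ((N : ℝ) ^ 2 * (p:ℝ) ^ (-η)) := by ring
    _ ≤ (p:ℝ) ^ (η / 2) * ((N : ℝ) ^ 2 * (p:ℝ) ^ (-η)) := by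
        gcongr
        exact hP2 p (by omega)
    _ = (p : ℝ) ^ (-(η / 2)) * (N : ℝ) ^ 2 := by
        rw [mul_left_comm, ← Real.rpow_add hp0, mul_comm]
        congr 2; ring

/-- Moebius maps -/
theorem moebius (ε : ℝ) (hε : 0 < ε) : ∃ τ : ℝ, 0 < τ ∧ ∃ P : ℕ, ∀ (p : ℕ) [Fact p.Prime], P ≤ p →
    ∀ (χ : DirichletCharacter ℂ p), χ ≠ 1 → ∀ (α β γ δ d : ZMod p), γ ≠ 0 → α * δ - β * γ ≠ 0 →
      ∀ N : ℕ, (p : ℝ) ^ (1 / 3 + ε) ≤ N → 2 * N < p → (∀ x < N, γ * (x : ZMod p) + δ ≠ 0) →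
      ∑ x ∈ range N, ‖∑ y ∈ range N, χ ((α * x + β) * (γ * (x : ZMod p) + δ)⁻¹ - (α * y + β) * (γ * (y : ZMod p) + δ)⁻¹ + d)‖
        ≤ (p : ℝ) ^ (-τ) * (N : ℝ) ^ 2 := by
  obtain ⟨τ, hτ, P, hP⟩ := recip ε hε
  refine ⟨τ, hτ, P, fun p hpF hp χ hχ α β γ δ d hγ hdet N hN hNp hpole => ?_⟩
  have hpole' : ∀ x < N, (x : ZMod p) + δ / γ ≠ 0 := by
    intro x hx h0
    apply hpole x hx
    have : γ * (x : ZMod p) + δ = γ * ((x : ZMod p) + δ / γ) := by field_simp
    rw [this, h0, mul_zero]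
  have hb : (β * γ - α * δ) / γ ^ 2 ≠ 0 := by
    apply div_ne_zero _ (pow_ne_zero 2 hγ)
    intro h0
    apply hdet
    linear_combination -h0
  have h := hP p hp χ hχ ((β * γ - α * δ) / γ ^ 2) (δ / γ) d hb N hN hNp hpole'
  refine le_trans (le_of_eq ?_) h
  have key : ∀ x < N, (α * (x : ZMod p) + β) * (γ * (x : ZMod p) + δ)⁻¹ =
      α / γ + (β * γ - α * δ) / γ ^ 2 * ((x : ZMod p) + δ / γ)⁻¹ := by
    intro x hx
    have h1 := hpole x hx
    have h2 := hpole' x hx
    have h3 : (x : ZMod p) + δ / γ = (γ * (x : ZMod p) + δ) / γ := by field_simp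
    have h4 : ((x : ZMod p) + δ / γ)⁻¹ = γ * (γ * (x : ZMod p) + δ)⁻¹ := by
      rw [h3, inv_div, div_eq_mul_inv]
    have hV : (γ * (x : ZMod p) + δ)⁻¹ * (γ * (x : ZMod p) + δ) = 1 := inv_mul_cancel₀ h1
    rw [h4]
    apply mul_left_cancel₀ hγ
    have e1 : γ * (α / γ + (β * γ - α * δ) / γ ^ 2 * (γ * (γ * (x : ZMod p) + δ)⁻¹)) =
        α + (β * γ - α * δ) * (γ * (x : ZMod p) + δ)⁻¹ := by
      generalize (γ * (x : ZMod p) + δ)⁻¹ = V
      field_simp
    rw [e1]
    linear_combination α * hV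
  refine sum_congr rfl fun x hx => ?_
  congr 1
  refine sum_congr rfl fun y hy => ?_
  rw [key x (mem_range.1 hx), key y (mem_range.1 hy)]
  congr 1
  ring

end Pool.Agent.H16.CU
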