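import Pool.Agent.H16.CU.C5

set_option autoImplicit false

/-!
# Arbitrary sets against quadratic and Moebius images of intervals
-/

namespace Pool.Agent.H16.CU

open Finset Pool.Agent.H16.SQ Polynomial

/-- an arbitrary set against a quadratic image of an interval -/
theorem bil_quad (ε : ℝ) (hε : 0 < ε) : ∃ τ : ℝ, 0 < τ ∧ ∃ P : ℕ, ∀ (p : ℕ) [Fact p.Prime], P ≤ p →
    ∀ (χ : DirichletCharacter ℂ p), χ ≠ 1 → ∀ (X : Finset (ZMod p)) (a b c : ZMod p), a ≠ 0 → ∀ N : ℕ,
      (p : ℝ) ^ (1 + ε) ≤ X.card * (N : ℝ) ^ 2 → (p : ℝ) ^ ε ≤ X.card →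
      ∑ w ∈ X, ‖∑ y ∈ range N, χ (w - (a * (y : ZMod p) ^ 2 + b * y + c))‖ ≤ (p : ℝ) ^ (-τ) * (X.card * N) := by
  obtain ⟨τ, hτ, P, hP⟩ := quad_all ε hε 1
  refine ⟨τ, hτ, P + 3, fun p hpF hp χ hχ X a b c ha N hXN hX => ?_⟩
  classical
  have h2ne : (2 : ZMod p) ≠ 0 := by
    have := cast_ne_zero (p := p) (a := 2) (by norm_num) (by omega)
    exact_mod_cast this
  set e : ZMod p := b / (2 * a) with he
  have h := hP p (by omega) χ hχ (ZMod p) X (fun _ => N) (fun _ => e) (fun w => e ^ 2 + (w - c) / a)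
    N X.card le_rfl (fun _ _ => le_rfl) hXN hX (by
      refine (card_le_univ _).trans ?_
      rw [ZMod.card]) (by
      intro v
      rw [card_le_one]
      intro x hx y hy
      rw [mem_filter] at hx hy
      have h1 : (x - c) / a = (y - c) / a := add_left_cancel (hx.2.trans hy.2.symm)
      have h2 := (div_left_inj' ha).1 h1
      exact sub_left_injective h2)
  refine le_trans (sum_le_sum fun w _ => ?_) h
  have : ∑ y ∈ range N, χ (w - (a * (y : ZMod p) ^ 2 + b * y + c)) =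
      χ (-a) * ∑ y ∈ range N, χ ((e + (y : ZMod p)) ^ 2 - (e ^ 2 + (w - c) / a)) := by
    rw [mul_sum]
    refine sum_congr rfl fun y _ => ?_
    rw [← map_mul]
    congr 1
    rw [he]
    field_simp
    ring
  rw [this, norm_mul]
  exact mul_le_of_le_one_left (norm_nonneg _) (DirichletCharacter.norm_le_one χ _)

/-- an arbitrary set against a Moebius image of an interval -/
theorem bil_moeb (ε : ℝ) (hε : 0 < ε) : ∃ τ : ℝ, 0 < τ ∧ ∃ P : ℕ, ∀ (p : ℕ) [Fact p.Prime], P ≤ p →
    ∀ (χ : DirichletCharacter ℂ p), χ ≠ 1 → ∀ (X : Finset (ZMod p)) (α β γ δ : ZMod p), γ ≠ 0 → α * δ - β * γ ≠ 0 →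
      ∀ N : ℕ, (∀ x < N, γ * (x : ZMod p) + δ ≠ 0) →
      (p : ℝ) ^ (1 + ε) ≤ X.card * (N : ℝ) ^ 2 → (p : ℝ) ^ ε ≤ X.card →
      ∑ w ∈ X, ‖∑ y ∈ range N, χ (w - (α * y + β) * (γ * (y : ZMod p) + δ)⁻¹)‖ ≤ (p : ℝ) ^ (-τ) * (X.card * N) := by
  obtain ⟨τ₀, hτ₀, P1, hP1⟩ := pair_all ε hε 2
  set η : ℝ := min τ₀ ε with hη
  have hη0 : 0 < η := lt_min hτ₀ hε
  obtain ⟨P2, hP2⟩ := large_pow (η / 2) (by positivity) 2
  refine ⟨η / 2, by positivity, P1 + P2 + 3, fun p hpF hp χ hχ X α β γ δ hγ hdet N hpole hXN hX => ?_⟩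
  classical
  have hpp : p.Prime := hpF.out
  have hp1' : (1:ℝ) < p := by exact_mod_cast hpp.one_lt
  have hp1 : (1:ℝ) ≤ p := hp1'.le
  have hp0 : (0:ℝ) < p := by linarith
  have mono : ∀ {a b : ℝ}, a ≤ b → (p:ℝ) ^ a ≤ (p:ℝ) ^ b := fun h => Real.rpow_le_rpow_of_exponent_le hp1 h
  have hχinv : χ⁻¹ ≠ 1 := by
    intro h
    exact hχ (inv_eq_one.1 h)
  have hXp : X.card ≤ p := by
    refine (card_le_univ _).trans ?_
    rw [ZMod.card]
  set U : Finset (ZMod p) := X.filter fun w => w * γ - α ≠ 0 with hU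
  have h := hP1 p (by omega) χ χ⁻¹ hχ hχinv (ZMod p) U (fun _ => N)
    (fun w => (w * δ - β) / (w * γ - α)) (fun _ => δ / γ)
    N X.card (card_filter_le _ _) (fun _ _ => le_rfl) hXN hX hXp (by
      intro v
      -- the squared difference is `(αδ-βγ)² / (γ (wγ-α))²`
      set Δ := α * δ - β * γ with hΔ
      set Q : (ZMod p)[X] := C (Δ ^ 2) - C (v * γ ^ 2) * (C γ * Polynomial.X - C α) ^ 2 with hQ
      have hQdeg : Q.natDegree ≤ 2 := by
        refine (natDegree_sub_le _ _).trans (max_le (by rw [natDegree_C]; omega) ?_)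
        refine (natDegree_C_mul_le _ _).trans ?_
        refine (natDegree_pow_le).trans ?_
        have : (C γ * Polynomial.X - C α).natDegree ≤ 1 := by
          refine (natDegree_sub_le _ _).trans (max_le ?_ (by rw [natDegree_C]; omega))
          refine (natDegree_C_mul_le _ _).trans ?_
          exact natDegree_X_le
        omega
      have hQ0 : Q ≠ 0 := by
        intro h0
        have e1 : Q.eval (α / γ) = Δ ^ 2 := by
          rw [hQ]
          simp only [eval_sub, eval_mul, eval_pow, eval_X, eval_C]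
          field_simp
          ring
        rw [h0, eval_zero] at e1
        exact pow_ne_zero 2 hdet e1.symm
      have h5 := mult_le U (fun w : ZMod p => w) (fun _ _ _ _ h => h) Q hQ0
        (fun w : ZMod p => ((w * δ - β) / (w * γ - α) - δ / γ) ^ 2 = v) (by
          intro w hw hwv
          rw [hU, mem_filter] at hw
          have hne := hw.2
          have e2 : (w * δ - β) / (w * γ - α) - δ / γ = Δ / ((w * γ - α) * γ) := by
            rw [div_sub_div _ _ hne hγ, hΔ]
            congr 1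
            ring
          rw [e2] at hwv
          rw [hQ, ← hwv]
          simp only [eval_sub, eval_mul, eval_pow, eval_X, eval_C]
          have e3 : (Δ / ((w * γ - α) * γ)) ^ 2 * γ ^ 2 * (γ * w - α) ^ 2 = Δ ^ 2 := by
            have e4 : γ * w - α = w * γ - α := by ring
            rw [e4, div_pow, mul_pow]
            generalize hg : w * γ - α = G at hne ⊢
            field_simp
          rw [e3, sub_self])
      exact h5.trans hQdeg)
  have h2 : ∀ w ∈ U, ‖∑ y ∈ range N, χ (w - (α * y + β) * (γ * (y : ZMod p) + δ)⁻¹)‖ ≤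
      ‖∑ y ∈ range N, χ ((w * δ - β) / (w * γ - α) + (y : ZMod p)) * χ⁻¹ (δ / γ + (y : ZMod p))‖ := by
    intro w hw
    rw [hU, mem_filter] at hw
    have hne := hw.2
    have : ∑ y ∈ range N, χ (w - (α * y + β) * (γ * (y : ZMod p) + δ)⁻¹) =
        χ ((w * γ - α) / γ) *
          ∑ y ∈ range N, χ ((w * δ - β) / (w * γ - α) + (y : ZMod p)) * χ⁻¹ (δ / γ + (y : ZMod p)) := by
      rw [mul_sum]
      refine sum_congr rfl fun y hy => ?_
      rw [mem_range] at hy
      have hy0 := hpole y hy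
      have hy1 : δ / γ + (y : ZMod p) = (γ * (y : ZMod p) + δ) / γ := by
        field_simp
        ring
      have hy0' : δ / γ + (y : ZMod p) ≠ 0 := by
        rw [hy1]
        exact div_ne_zero hy0 hγ
      rw [MulChar.inv_apply_eq_inv', ← mul_assoc, ← map_mul]
      have hχy : χ (δ / γ + (y : ZMod p)) ≠ 0 := by
        intro h0
        have := map_mul χ (δ / γ + (y : ZMod p)) (δ / γ + (y : ZMod p))⁻¹
        rw [mul_inv_cancel₀ hy0', map_one, h0, zero_mul] at this
        exact one_ne_zero this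
      rw [eq_mul_inv_iff_mul_eq₀ hχy, ← map_mul]
      congr 1
      have e5 : (w * γ - α) / γ * ((w * δ - β) / (w * γ - α) + (y : ZMod p)) =
          (w * δ - β + (w * γ - α) * y) / γ := by
        generalize hg : w * γ - α = G at hne ⊢
        field_simp
      rw [e5, hy1]
      have hV : (γ * (y : ZMod p) + δ)⁻¹ * (γ * (y : ZMod p) + δ) = 1 := inv_mul_cancel₀ hy0
      rw [mul_div_assoc']
      congr 1
      linear_combination (-(α * (y : ZMod p) + β)) * hV
    rw [this, norm_mul]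
    exact mul_le_of_le_one_left (norm_nonneg _) (DirichletCharacter.norm_le_one χ _)
  rw [← sum_filter_add_sum_filter_not X (fun w : ZMod p => w * γ - α ≠ 0)]
  have hN0 : (0:ℝ) ≤ N := Nat.cast_nonneg _
  have h3 : ∑ w ∈ X.filter (fun w : ZMod p => ¬ (w * γ - α ≠ 0)),
      ‖∑ y ∈ range N, χ (w - (α * y + β) * (γ * (y : ZMod p) + δ)⁻¹)‖ ≤ N := by
    have hc : (X.filter (fun w : ZMod p => ¬ (w * γ - α ≠ 0))).card ≤ 1 := by
      rw [card_le_one]
      intro x hx y hy
      rw [mem_filter, not_not] at hx hy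
      exact mul_right_cancel₀ hγ (by linear_combination hx.2 - hy.2)
    have hb1 : ∀ w ∈ X.filter (fun w : ZMod p => ¬ (w * γ - α ≠ 0)),
        ‖∑ y ∈ range N, χ (w - (α * y + β) * (γ * (y : ZMod p) + δ)⁻¹)‖ ≤ N := by
      intro x _
      refine (norm_sum_le _ _).trans ((sum_le_sum fun v _ => DirichletCharacter.norm_le_one χ _).trans ?_)
      rw [sum_const, nsmul_eq_mul, mul_one, card_range]
    refine (sum_le_sum hb1).trans ?_
    rw [sum_const, nsmul_eq_mul]
    have hc' : ((X.filter (fun w : ZMod p => ¬ (w * γ - α ≠ 0))).card : ℝ) ≤ 1 := by exact_mod_cast hc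
    exact mul_le_of_le_one_left hN0 hc'
  refine (add_le_add ((sum_le_sum h2).trans h) h3).trans ?_
  have hNη : (N : ℝ) ≤ (X.card * N) * (p:ℝ) ^ (-η) := by
    have h11 : (p:ℝ) ^ η ≤ X.card := (mono (min_le_right τ₀ ε)).trans hX
    rw [Real.rpow_neg hp0.le, ← div_eq_mul_inv, le_div_iff₀ (by positivity), mul_comm (X.card : ℝ) (N : ℝ)]
    exact mul_le_mul_of_nonneg_left h11 hN0
  have c1 : (p : ℝ) ^ (-τ₀) ≤ (p:ℝ) ^ (-η) := mono (by linarith [min_le_left τ₀ ε])
  calc (p : ℝ) ^ (-τ₀) * (X.card * N) + (N : ℝ) ≤ (p : ℝ) ^ (-η) * (X.card * N) + (X.card * N) * (p:ℝ) ^ (-η) := by gcongr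
    _ = 2 * ((X.card * N) * (p:ℝ) ^ (-η)) := by ring
    _ ≤ (p:ℝ) ^ (η / 2) * ((X.card * N) * (p:ℝ) ^ (-η)) := by
        gcongr
        exact hP2 p (by omega)
    _ = (p : ℝ) ^ (-(η / 2)) * (X.card * N) := by
        rw [mul_left_comm, ← Real.rpow_add hp0, mul_comm]
        congr 2; ring

end Pool.Agent.H16.CU
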