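import Pool.Agent.H16.CU.C5

set_option autoImplicit false

/-!
# Two cubic polynomials with the same leading coefficient
-/

namespace Pool.Agent.H16.CU

open Finset Pool.Agent.H16.SQ Polynomial

/-- the double sum over the values of two cubic polynomials with the same leading coefficient -/
theorem cubic_pair (ε : ℝ) (hε : 0 < ε) : ∃ τ : ℝ, 0 < τ ∧ ∃ P : ℕ, ∀ (p : ℕ) [Fact p.Prime], P ≤ p →
    ∀ (χ : DirichletCharacter ℂ p), χ ≠ 1 → ∀ (a b c e b' c' e' : ZMod p), a ≠ 0 → ∀ n n' : ℕ,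
      (p : ℝ) ^ (1 / 3 + ε) ≤ n → (p : ℝ) ^ (1 / 3 + ε) ≤ n' → 2 * n < p → 2 * n' < p →
      ‖∑ x ∈ range n, ∑ y ∈ range n', χ ((a * (x : ZMod p) ^ 3 + b * x ^ 2 + c * x + e) -
        (a * (y : ZMod p) ^ 3 + b' * y ^ 2 + c' * y + e'))‖ ≤ (p : ℝ) ^ (-τ) * (n * n') := by
  obtain ⟨τ₀, hτ₀, P1, hP1⟩ := quad_all ε hε 4
  set η : ℝ := min τ₀ (1 / 3) with hη
  have hη0 : 0 < η := lt_min hτ₀ (by norm_num)
  obtain ⟨P2, hP2⟩ := large_pow (η / 2) (by positivity) 3
  refine ⟨η / 2, by positivity, P1 + P2 + 5, fun p hpF hp χ hχ a b c e b' c' e' ha n n' hn hn' hnp hnp' => ?_⟩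
  classical
  have hpp : p.Prime := hpF.out
  have hp1' : (1:ℝ) < p := by exact_mod_cast hpp.one_lt
  have hp1 : (1:ℝ) ≤ p := hp1'.le
  have hp0 : (0:ℝ) < p := by linarith
  have mono : ∀ {a b : ℝ}, a ≤ b → (p:ℝ) ^ a ≤ (p:ℝ) ^ b := fun h => Real.rpow_le_rpow_of_exponent_le hp1 h
  have h2ne : (2 : ZMod p) ≠ 0 := by
    have := cast_ne_zero (p := p) (a := 2) (by norm_num) (by omega)
    exact_mod_cast this
  have h3ne : (3 : ZMod p) ≠ 0 := by
    have := cast_ne_zero (p := p) (a := 3) (by norm_num) (by omega)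
    exact_mod_cast this
  have h4ne : (4 : ZMod p) ≠ 0 := by
    have : (4 : ZMod p) = 2 * 2 := by norm_num
    rw [this]; exact mul_ne_zero h2ne h2ne
  have hn0 : (0:ℝ) < n := lt_of_lt_of_le (by positivity) hn
  have hn0' : (0:ℝ) < n' := lt_of_lt_of_le (by positivity) hn'
  set N : ℕ := min n n' with hN
  have hNr : (N : ℝ) = min (n : ℝ) n' := by rw [hN]; exact Nat.cast_min _ _
  have hNlow : (p : ℝ) ^ (1 / 3 + ε) ≤ N := by rw [hNr]; exact le_min hn hn'
  have hNn : (N : ℝ) ≤ n := by rw [hNr]; exact min_le_left _ _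
  have hNn' : (N : ℝ) ≤ n' := by rw [hNr]; exact min_le_right _ _
  have hN0 : (0:ℝ) < N := lt_of_lt_of_le (by positivity) hNlow
  have hN3 : (p : ℝ) ^ (1 + ε) ≤ ((n + n' : ℕ) : ℝ) * (N : ℝ) ^ 2 := by
    calc (p : ℝ) ^ (1 + ε) ≤ (p : ℝ) ^ (3 * (1 / 3 + ε)) := mono (by linarith)
      _ = ((p : ℝ) ^ (1 / 3 + ε)) ^ 3 := by
          rw [← Real.rpow_natCast, ← Real.rpow_mul hp0.le]; congr 1; push_cast; ring
      _ ≤ (N : ℝ) ^ 3 := pow_le_pow_left₀ (by positivity) hNlow 3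
      _ = N * (N : ℝ) ^ 2 := by ring
      _ ≤ ((n + n' : ℕ) : ℝ) * (N : ℝ) ^ 2 := by
          push_cast
          have : (N : ℝ) ≤ n + n' := by linarith
          gcongr
  have hM : (p : ℝ) ^ ε ≤ ((n + n' : ℕ) : ℝ) := by
    push_cast
    have := (mono (a := ε) (b := 1 / 3 + ε) (by linarith)).trans hn
    linarith
  -- the coefficients
  set Au : ℤ → ZMod p := fun u => 3 * a * u + (b - b') with hAu
  set Bu : ℤ → ZMod p := fun u => 3 * a * (u : ZMod p) ^ 2 + 2 * b * u + (c - c') with hBu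
  set Cu : ℤ → ZMod p := fun u => a * (u : ZMod p) ^ 3 + b * (u : ZMod p) ^ 2 + c * u + (e - e') with hCu
  set U0 : Finset ℤ := Icc (-(n':ℤ)) n with hU0
  set U : Finset ℤ := U0.filter fun u => Au u ≠ 0 with hU
  have hinj0 : Set.InjOn (fun u : ℤ => (u : ZMod p)) (U0 : Set ℤ) := by
    intro u hu v hv huv
    rw [hU0, mem_coe, mem_Icc] at hu hv
    by_contra hne
    have h4 : ((u - v : ℤ) : ZMod p) ≠ 0 := by
      apply cast_ne
      · omega
      · rw [abs_lt]; constructor <;> omega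
    apply h4
    simp only at huv
    rw [Int.cast_sub, huv, sub_self]
  have hU0card : U0.card = n + n' + 1 := by
    rw [hU0, Int.card_Icc]
    omega
  -- the fibres of the difference
  set s : ℤ → ℕ := fun u => (-u).toNat with hs
  set nn : ℤ → ℕ := fun u => (min (n' : ℤ) (n - u) - s u).toNat with hnn
  have hnnN : ∀ u : ℤ, nn u ≤ N := by
    intro u
    rw [hnn, hs, hN]
    simp only
    omega
  have hfib : ∀ u : ℤ, (range n ×ˢ range n').filter (fun v : ℕ × ℕ => (v.1 : ℤ) - v.2 = u) =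
      (range (nn u)).image (fun y => ((((s u + y : ℕ) : ℤ) + u).toNat, s u + y)) := by
    intro u
    ext v
    rw [mem_filter, mem_product, mem_range, mem_range, mem_image]
    constructor
    · rintro ⟨⟨h1, h2⟩, h4⟩
      refine ⟨v.2 - s u, ?_, ?_⟩
      · rw [mem_range, hnn, hs]
        simp only
        omega
      · rw [hs]
        ext
        · simp only; omega
        · simp only; omega
    · rintro ⟨y, hy, rfl⟩
      rw [mem_range, hnn, hs] at hy
      rw [hs]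
      simp only at hy ⊢
      omega
  have hpos : ∀ u : ℤ, ∀ y : ℕ, 0 ≤ ((s u + y : ℕ) : ℤ) + u := by
    intro u y
    rw [hs]
    simp only
    omega
  -- at most one parameter is exceptional; we also drop `u = -n'`, whose fibre is empty
  set U1 : Finset ℤ := U.erase (-(n':ℤ)) with hU1
  have hU1card : U1.card ≤ n + n' := by
    have h1 : U1 ⊆ U0.erase (-(n':ℤ)) := by
      rw [hU1]
      exact erase_subset_erase _ (filter_subset _ _)
    refine (card_le_card h1).trans ?_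
    rw [card_erase_of_mem (by rw [hU0, mem_Icc]; constructor <;> omega), hU0card]
    omega
  have h := hP1 p (by omega) χ hχ ℤ U1 nn (fun u => (s u : ZMod p) + Bu u / (2 * Au u))
    (fun u => (Bu u ^ 2 - 4 * Au u * Cu u) / (4 * Au u ^ 2))
    N (n + n') hU1card (fun u _ => hnnN u) hN3 hM (by omega) (by
      intro v
      set PA : (ZMod p)[X] := C (3 * a) * X + C (b - b') with hPA
      set PB : (ZMod p)[X] := C (3 * a) * X ^ 2 + C (2 * b) * X + C (c - c') with hPB
      set PC : (ZMod p)[X] := C a * X ^ 3 + C b * X ^ 2 + C c * X + C (e - e') with hPC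
      set Q : (ZMod p)[X] := PB ^ 2 - 4 * PA * PC - C (4 * v) * PA ^ 2 with hQ
      have hdA : PA.natDegree ≤ 1 := natDegree_linear_le
      have hdB : PB.natDegree ≤ 2 := natDegree_quadratic_le
      have hdC : PC.natDegree ≤ 3 := natDegree_cubic_le
      have hQdeg : Q.natDegree ≤ 4 := by
        refine (natDegree_sub_le _ _).trans (max_le ((natDegree_sub_le _ _).trans (max_le ?_ ?_)) ?_)
        · refine natDegree_pow_le.trans ?_
          omega
        · have h4C : (4 : (ZMod p)[X]) = C 4 := (map_ofNat C 4).symm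
          refine natDegree_mul_le.trans ?_
          rw [h4C]
          have := natDegree_C_mul_le (4 : ZMod p) PA
          omega
        · refine (natDegree_C_mul_le _ _).trans (natDegree_pow_le.trans ?_)
          omega
      have hQ4 : Q.coeff 4 = -3 * a ^ 2 := by
        have eQ : Q = C (-3 * a ^ 2) * X ^ 4 + (C (-4 * a * b - 4 * a * (b - b') * 2 - 4 * a * b * 2 + 12 * a * b + 4 * a * (b-b') * 2 - 4 * a * (b - b')) * X ^ 3 +
            C ((2 * b) ^ 2 + 6 * a * (c - c') - 4 * (3 * a * c + (b - b') * b) - 4 * v * (3 * a) ^ 2) * X ^ 2 +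
            C (2 * (2 * b) * (c - c') - 4 * (3 * a * (e - e') + (b - b') * c) - 4 * v * (2 * (3 * a) * (b - b'))) * X +
            C ((c - c') ^ 2 - 4 * (b - b') * (e - e') - 4 * v * (b - b') ^ 2)) := by
          rw [hQ, hPA, hPB, hPC]
          simp only [map_add, map_sub, map_mul, map_pow, map_neg, map_ofNat]
          ring
        obtain ⟨k3, k2, k1, k0, hk⟩ : ∃ k3 k2 k1 k0 : ZMod p,
            Q = C (-3 * a ^ 2) * X ^ 4 + (C k3 * X ^ 3 + C k2 * X ^ 2 + C k1 * X + C k0) := ⟨_, _, _, _, eQ⟩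
        rw [hk]
        generalize -3 * a ^ 2 = k4
        simp [coeff_X, coeff_C]
      have hQ0 : Q ≠ 0 := by
        intro h0
        rw [h0, coeff_zero] at hQ4
        have : (3 : ZMod p) * a ^ 2 = 0 := by linear_combination hQ4
        exact mul_ne_zero h3ne (pow_ne_zero 2 ha) this
      have h5 := mult_le U1 (fun u : ℤ => (u : ZMod p)) (hinj0.mono (by
          intro u hu
          rw [hU1, mem_coe, mem_erase, hU, mem_filter] at hu
          exact mem_coe.2 hu.2.1)) Q hQ0 (fun u : ℤ => (Bu u ^ 2 - 4 * Au u * Cu u) / (4 * Au u ^ 2) = v) (by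
          intro u hu hx
          rw [hU1, mem_erase, hU, mem_filter] at hu
          have hA0 := hu.2.2
          have hA4 : 4 * Au u ^ 2 ≠ 0 := mul_ne_zero h4ne (pow_ne_zero 2 hA0)
          rw [div_eq_iff hA4] at hx
          rw [hQ, hPA, hPB, hPC]
          simp only [eval_add, eval_sub, eval_mul, eval_pow, eval_X, eval_C, eval_ofNat]
          rw [hAu, hBu, hCu] at hx
          simp only at hx
          linear_combination hx)
      exact h5.trans hQdeg)
  -- the double sum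
  rw [← sum_product']
  have h1 : ∑ v ∈ range n ×ˢ range n', χ ((a * (v.1 : ZMod p) ^ 3 + b * v.1 ^ 2 + c * v.1 + e) -
        (a * (v.2 : ZMod p) ^ 3 + b' * v.2 ^ 2 + c' * v.2 + e')) =
      ∑ u ∈ U0.erase (-(n':ℤ)), ∑ v ∈ (range n ×ˢ range n').filter (fun v : ℕ × ℕ => (v.1 : ℤ) - v.2 = u),
        χ ((a * (v.1 : ZMod p) ^ 3 + b * v.1 ^ 2 + c * v.1 + e) -
        (a * (v.2 : ZMod p) ^ 3 + b' * v.2 ^ 2 + c' * v.2 + e')) := by
    rw [sum_fiberwise_of_maps_to]
    intro v hv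
    rw [mem_product, mem_range, mem_range] at hv
    rw [hU0, mem_erase, mem_Icc]
    omega
  rw [h1, ← sum_filter_add_sum_filter_not (U0.erase (-(n':ℤ))) (fun u => Au u ≠ 0)]
  have hU1' : (U0.erase (-(n':ℤ))).filter (fun u => Au u ≠ 0) = U1 := by
    rw [hU1, hU]
    ext u
    simp only [mem_filter, mem_erase]
    tauto
  rw [hU1']
  have hcardfib : ∀ u : ℤ, ((range n ×ˢ range n').filter (fun v : ℕ × ℕ => (v.1 : ℤ) - v.2 = u)).card ≤ N := by
    intro u
    rw [hfib u]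
    refine card_image_le.trans ?_
    rw [card_range]
    exact hnnN u
  have h0 : ‖∑ u ∈ (U0.erase (-(n':ℤ))).filter (fun u => ¬ (Au u ≠ 0)),
        ∑ v ∈ (range n ×ˢ range n').filter (fun v : ℕ × ℕ => (v.1 : ℤ) - v.2 = u),
        χ ((a * (v.1 : ZMod p) ^ 3 + b * v.1 ^ 2 + c * v.1 + e) -
        (a * (v.2 : ZMod p) ^ 3 + b' * v.2 ^ 2 + c' * v.2 + e'))‖ ≤ N := by
    have hc : ((U0.erase (-(n':ℤ))).filter (fun u => ¬ (Au u ≠ 0))).card ≤ 1 := by
      rw [card_le_one]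
      intro x hx y hy
      rw [mem_filter, mem_erase, not_not] at hx hy
      apply hinj0 (mem_coe.2 hx.1.2) (mem_coe.2 hy.1.2)
      have h3a : (3 : ZMod p) * a ≠ 0 := mul_ne_zero h3ne ha
      apply mul_left_cancel₀ h3a
      have k1 := hx.2
      have k2 := hy.2
      rw [hAu] at k1 k2
      simp only at k1 k2 ⊢
      linear_combination k1 - k2
    have hb1 : ∀ u ∈ (U0.erase (-(n':ℤ))).filter (fun u => ¬ (Au u ≠ 0)),
        ‖∑ v ∈ (range n ×ˢ range n').filter (fun v : ℕ × ℕ => (v.1 : ℤ) - v.2 = u),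
        χ ((a * (v.1 : ZMod p) ^ 3 + b * v.1 ^ 2 + c * v.1 + e) -
        (a * (v.2 : ZMod p) ^ 3 + b' * v.2 ^ 2 + c' * v.2 + e'))‖ ≤ N := by
      intro u _
      refine (norm_sum_le _ _).trans ((sum_le_sum fun v _ => DirichletCharacter.norm_le_one χ _).trans ?_)
      rw [sum_const, nsmul_eq_mul, mul_one]
      exact_mod_cast hcardfib u
    refine (norm_sum_le _ _).trans ((sum_le_sum hb1).trans ?_)
    rw [sum_const, nsmul_eq_mul]
    have hc' : (((U0.erase (-(n':ℤ))).filter (fun u => ¬ (Au u ≠ 0))).card : ℝ) ≤ 1 := by exact_mod_cast hc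
    exact mul_le_of_le_one_left hN0.le hc'
  have h2 : ∀ u ∈ U1, ‖∑ v ∈ (range n ×ˢ range n').filter (fun v : ℕ × ℕ => (v.1 : ℤ) - v.2 = u),
        χ ((a * (v.1 : ZMod p) ^ 3 + b * v.1 ^ 2 + c * v.1 + e) -
        (a * (v.2 : ZMod p) ^ 3 + b' * v.2 ^ 2 + c' * v.2 + e'))‖ ≤
      ‖∑ y ∈ range (nn u), χ (((s u : ZMod p) + Bu u / (2 * Au u) + (y : ZMod p)) ^ 2 -
        (Bu u ^ 2 - 4 * Au u * Cu u) / (4 * Au u ^ 2))‖ := by
    intro u hu
    rw [hU1, mem_erase, hU, mem_filter] at hu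
    have hA0 := hu.2.2
    rw [hfib u, sum_image]
    · have e5 : ∑ y ∈ range (nn u), χ ((a * (((((s u + y : ℕ) : ℤ) + u).toNat : ℕ) : ZMod p) ^ 3 +
          b * (((((s u + y : ℕ) : ℤ) + u).toNat : ℕ) : ZMod p) ^ 2 + c * (((((s u + y : ℕ) : ℤ) + u).toNat : ℕ) : ZMod p) + e) -
          (a * ((s u + y : ℕ) : ZMod p) ^ 3 + b' * ((s u + y : ℕ) : ZMod p) ^ 2 + c' * ((s u + y : ℕ) : ZMod p) + e')) =
          χ (Au u) * ∑ y ∈ range (nn u), χ (((s u : ZMod p) + Bu u / (2 * Au u) + (y : ZMod p)) ^ 2 -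
            (Bu u ^ 2 - 4 * Au u * Cu u) / (4 * Au u ^ 2)) := by
        rw [mul_sum]
        refine sum_congr rfl fun y hy => ?_
        rw [mem_range] at hy
        rw [← map_mul]
        congr 1
        have e6 : (((((s u + y : ℕ) : ℤ) + u).toNat : ℕ) : ZMod p) = ((s u + y : ℕ) : ZMod p) + (u : ZMod p) := by
          have : ((((((s u + y : ℕ) : ℤ) + u).toNat : ℕ) : ℤ) : ZMod p) = ((((s u + y : ℕ) : ℤ) + u : ℤ) : ZMod p) := by
            rw [Int.toNat_of_nonneg (hpos u y)]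
          rw [Int.cast_natCast] at this
          rw [this]
          push_cast
          ring
        rw [e6]
        have e7 : Au u * (((s u : ZMod p) + Bu u / (2 * Au u) + (y : ZMod p)) ^ 2 -
            (Bu u ^ 2 - 4 * Au u * Cu u) / (4 * Au u ^ 2)) =
            Au u * ((s u : ZMod p) + y) ^ 2 + Bu u * ((s u : ZMod p) + y) + Cu u := by
          generalize Au u = G at hA0 ⊢
          generalize Bu u = G2
          generalize Cu u = G3
          field_simp
          ring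
        rw [e7, hAu, hBu, hCu]
        push_cast
        ring
      rw [e5, norm_mul]
      exact mul_le_of_le_one_left (norm_nonneg _) (DirichletCharacter.norm_le_one χ _)
    · intro x _ y _ hxy
      have := (Prod.mk.inj hxy).2
      omega
  have h3 : ‖∑ u ∈ U1, ∑ v ∈ (range n ×ˢ range n').filter (fun v : ℕ × ℕ => (v.1 : ℤ) - v.2 = u),
        χ ((a * (v.1 : ZMod p) ^ 3 + b * v.1 ^ 2 + c * v.1 + e) -
        (a * (v.2 : ZMod p) ^ 3 + b' * v.2 ^ 2 + c' * v.2 + e'))‖ ≤ (p : ℝ) ^ (-τ₀) * (((n + n' : ℕ) : ℝ) * N) :=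
    (norm_sum_le _ _).trans ((sum_le_sum h2).trans h)
  refine (norm_add_le _ _).trans ((add_le_add h3 h0).trans ?_)
  push_cast
  have hMN : ((n : ℝ) + n') * N ≤ 2 * (n * n') := by
    rcases le_total (n : ℝ) n' with hle | hle
    · rw [hNr, min_eq_left hle]; nlinarith
    · rw [hNr, min_eq_right hle]; nlinarith
  have hNη : (N : ℝ) ≤ (n * n' : ℝ) * (p:ℝ) ^ (-η) := by
    have h11 : (p:ℝ) ^ η ≤ n' := by
      refine le_trans (mono ?_) hn'
      linarith [min_le_right τ₀ (1 / 3 : ℝ)]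
    rw [Real.rpow_neg hp0.le, ← div_eq_mul_inv, le_div_iff₀ (by positivity)]
    exact mul_le_mul hNn h11 (by positivity) hn0.le
  have c1 : (p : ℝ) ^ (-τ₀) ≤ (p:ℝ) ^ (-η) := mono (by linarith [min_le_left τ₀ (1 / 3 : ℝ)])
  calc (p : ℝ) ^ (-τ₀) * (((n : ℝ) + n') * N) + (N : ℝ) ≤
        (p : ℝ) ^ (-η) * (2 * (n * n')) + (n * n' : ℝ) * (p:ℝ) ^ (-η) := by gcongr
    _ = 3 * ((n * n' : ℝ) * (p:ℝ) ^ (-η)) := by ring
    _ ≤ (p:ℝ) ^ (η / 2) * ((n * n' : ℝ) * (p:ℝ) ^ (-η)) := by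
        gcongr
        exact hP2 p (by omega)
    _ = (p : ℝ) ^ (-(η / 2)) * (n * n') := by
        rw [mul_left_comm, ← Real.rpow_add hp0, mul_comm]
        congr 2; ring

end Pool.Agent.H16.CU
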